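import Pool.Agent.Lib.MP_188a32_co_helper88.TaskC

/-!
# Task D, first part: orientation preserving affine maps
-/

set_option autoImplicit false

namespace Pool.Agent.LinKnot

open scoped Classical Topology Matrix

lemma isotopic_of_affine_path (A : ℝ → R3 →ᵃ[ℝ] R3)
    (hc : ∀ x, ContinuousOn (fun t => A t x) (Set.Icc 0 1))
    (hi : ∀ t ∈ Set.Icc (0 : ℝ) 1, Function.Injective (A t)) {l : List R3} (hl : IsKnot l) :
    Isotopic (l.map (A 0)) (l.map (A 1)) := by
  have e1 : ∀ t, List.ofFn (fun i : Fin l.length => A t (l.get i)) = l.map (A t) := by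
    intro t
    rw [← Function.comp_def, ← List.map_ofFn]
    congr 1
    exact List.ofFn_get l
  have := isotopic_of_path (n := l.length) (fun t i => A t (l.get i))
    (continuousOn_pi.2 fun i => hc _) (by
      intro t ht
      rw [e1]
      exact hl.map _ (hi t ht))
  simpa only [e1] using this

/-- the linear map of a matrix -/
noncomputable def mmap (M : Matrix (Fin 3) (Fin 3) ℝ) : R3 →ᵃ[ℝ] R3 := (Matrix.toLin' M).toAffineMap

lemma mmap_apply (M : Matrix (Fin 3) (Fin 3) ℝ) (x : R3) : mmap M x = M *ᵥ x := rfl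

lemma mmap_injective {M : Matrix (Fin 3) (Fin 3) ℝ} (h : M.det ≠ 0) :
    Function.Injective (mmap M) := by
  intro x y hxy
  rw [mmap_apply, mmap_apply] at hxy
  have h1 : IsUnit M.det := isUnit_iff_ne_zero.2 h
  have : M⁻¹ *ᵥ (M *ᵥ x) = M⁻¹ *ᵥ (M *ᵥ y) := by rw [hxy]
  simpa [Matrix.mulVec_mulVec, Matrix.nonsing_inv_mul _ h1] using this

lemma isotopic_of_matrix_path (M : ℝ → Matrix (Fin 3) (Fin 3) ℝ) (hc : Continuous M)
    (hd : ∀ t ∈ Set.Icc (0 : ℝ) 1, (M t).det ≠ 0) {l : List R3} (hl : IsKnot l) :
    Isotopic (l.map (mmap (M 0))) (l.map (mmap (M 1))) := by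
  apply isotopic_of_affine_path (fun t => mmap (M t)) _ (fun t ht => mmap_injective (hd t ht)) hl
  intro x
  apply Continuous.continuousOn
  simp only [mmap_apply]
  exact hc.matrix_mulVec continuous_const

/-- the standard reflection -/
def refl3 : Matrix (Fin 3) (Fin 3) ℝ := Matrix.diagonal ![1, 1, -1]

lemma det_diag3 (a b c : ℝ) : (Matrix.diagonal ![a, b, c]).det = a * b * c := by
  rw [Matrix.det_diagonal, Fin.prod_univ_three]; rfl

lemma det_refl3 : refl3.det = -1 := by
  unfold refl3; rw [det_diag3]; ring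

lemma diag3_mul (a b c a' b' c' : ℝ) : Matrix.diagonal ![a, b, c] * Matrix.diagonal ![a', b', c'] =
    Matrix.diagonal ![a * a', b * b', c * c'] := by
  rw [Matrix.diagonal_mul_diagonal]
  congr 1
  funext i
  fin_cases i <;> rfl

lemma map_mmap_mul (A B : Matrix (Fin 3) (Fin 3) ℝ) (l : List R3) :
    (l.map (mmap B)).map (mmap A) = l.map (mmap (A * B)) := by
  rw [List.map_map]
  congr 1
  funext x
  simp [mmap_apply, Matrix.mulVec_mulVec]

lemma map_mmap_one (l : List R3) : l.map (mmap 1) = l := by
  have : (mmap 1 : R3 → R3) = id := by funext x; simp [mmap_apply]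
  rw [this]; simp

/-- the property which is proved by induction -/
def PP (M : Matrix (Fin 3) (Fin 3) ℝ) : Prop :=
  (0 < M.det → ∀ l, IsKnot l → Isotopic l (l.map (mmap M))) ∧
  (M.det < 0 → ∀ l, IsKnot l → Isotopic (l.map (mmap refl3)) (l.map (mmap M)))

lemma refl3_mul_self : refl3 * refl3 = 1 := by
  unfold refl3
  rw [diag3_mul, ← Matrix.diagonal_one]
  congr 1
  funext i
  fin_cases i <;> simp

lemma isKnot_map_mmap {l : List R3} (hl : IsKnot l) {M : Matrix (Fin 3) (Fin 3) ℝ}
    (h : M.det ≠ 0) : IsKnot (l.map (mmap M)) := hl.map _ (mmap_injective h)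

lemma PP_mul {A B : Matrix (Fin 3) (Fin 3) ℝ} (hA : A.det ≠ 0) (hB : B.det ≠ 0) (pA : PP A)
    (pB : PP B) : PP (A * B) := by
  have hR : refl3.det ≠ 0 := by rw [det_refl3]; norm_num
  constructor
  · intro h l hl
    rw [Matrix.det_mul] at h
    rw [← map_mmap_mul]
    rcases lt_or_gt_of_ne hA with h1 | h1
    · have h2 : B.det < 0 := by
        by_contra h2
        push Not at h2
        have := mul_nonpos_of_nonpos_of_nonneg h1.le h2
        linarith
      -- `l = R R l ~ R B l ~ A B l`
      have i1 := (pB.2 h2 l hl).map (mmap refl3) (mmap_injective hR)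
      rw [map_mmap_mul, refl3_mul_self, map_mmap_one] at i1
      exact i1.trans (pA.2 h1 _ (isKnot_map_mmap hl hB))
    · have h2 : 0 < B.det := by
        by_contra h2
        push Not at h2
        have := mul_nonpos_of_nonneg_of_nonpos h1.le h2
        linarith
      exact (pB.1 h2 l hl).trans (pA.1 h1 _ (isKnot_map_mmap hl hB))
  · intro h l hl
    rw [Matrix.det_mul] at h
    rw [← map_mmap_mul]
    rcases lt_or_gt_of_ne hA with h1 | h1
    · have h2 : 0 < B.det := by
        by_contra h2
        push Not at h2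
        have := mul_nonneg_of_nonpos_of_nonpos h1.le h2
        linarith
      have i1 := (pB.1 h2 l hl).map (mmap refl3) (mmap_injective hR)
      exact i1.trans (pA.2 h1 _ (isKnot_map_mmap hl hB))
    · have h2 : B.det < 0 := by
        by_contra h2
        push Not at h2
        have := mul_nonneg h1.le h2
        linarith
      exact (pB.2 h2 l hl).trans (pA.1 h1 _ (isKnot_map_mmap hl hB))

lemma isotopic_diag {D D' : Fin 3 → ℝ} (h : ∀ i, 0 < D i * D' i) {l : List R3} (hl : IsKnot l) :
    Isotopic (l.map (mmap (Matrix.diagonal D))) (l.map (mmap (Matrix.diagonal D'))) := by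
  have := isotopic_of_matrix_path (fun t => Matrix.diagonal (fun i => (1 - t) * D i + t * D' i))
    (by fun_prop) (by
      intro t ht
      rw [Matrix.det_diagonal, Finset.prod_ne_zero_iff]
      intro i _ h0
      have h1 := h i
      have h2 : ((1 - t) * D i + t * D' i) * D i = 0 := by rw [h0, zero_mul]
      have h3 : 0 < (1 - t) * (D i * D i) + t * (D i * D' i) := by
        have h4 : D i ≠ 0 := by intro h5; rw [h5, zero_mul] at h1; exact lt_irrefl _ h1
        have h6 : 0 < D i * D i := mul_self_pos.2 h4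
        rcases eq_or_lt_of_le ht.1 with h7 | h7
        · rw [← h7]; linarith
        · have := mul_pos h7 h1
          have := mul_nonneg (sub_nonneg.2 ht.2) h6.le
          linarith
      have h8 : ((1 - t) * D i + t * D' i) * D i =
        (1 - t) * (D i * D i) + t * (D i * D' i) := by ring
      linarith) hl
  simpa using this

lemma PP_of_sign {M : Matrix (Fin 3) (Fin 3) ℝ}
    (h : (0 < M.det ∧ ∀ l, IsKnot l → Isotopic l (l.map (mmap M))) ∨
      (M.det < 0 ∧ ∀ l, IsKnot l → Isotopic (l.map (mmap refl3)) (l.map (mmap M)))) : PP M := by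
  rcases h with h | h
  · exact ⟨fun _ => h.2, fun h0 => absurd h.1 (not_lt.2 h0.le)⟩
  · exact ⟨fun h0 => absurd h.1 (not_lt.2 h0.le), fun _ => h.2⟩

lemma rot_isotopic (M : ℝ → Matrix (Fin 3) (Fin 3) ℝ) (hc : Continuous M)
    (hd : ∀ t, (M t).det = 1) (h0 : M 0 = 1) {l : List R3} (hl : IsKnot l) :
    Isotopic (l.map (mmap refl3)) (l.map (mmap (M 1 * refl3))) := by
  have hR : refl3.det ≠ 0 := by rw [det_refl3]; norm_num
  have := isotopic_of_matrix_path M hc (fun t _ => by rw [hd]; norm_num) (isKnot_map_mmap hl hR)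
  rw [h0, map_mmap_one, map_mmap_mul] at this
  exact this

lemma one_eq_diag3 : (1 : Matrix (Fin 3) (Fin 3) ℝ) = Matrix.diagonal ![1, 1, 1] := by
  rw [← Matrix.diagonal_one]
  congr 1
  funext i
  fin_cases i <;> simp

lemma PP_diag_pos {D : Fin 3 → ℝ} (h : ∀ i, 0 < D i) : PP (Matrix.diagonal D) := by
  apply PP_of_sign
  left
  refine ⟨?_, fun l hl => ?_⟩
  · rw [Matrix.det_diagonal]; exact Finset.prod_pos fun i _ => h i
  · have := isotopic_diag (D := fun _ => 1) (D' := D) (fun i => by simpa using h i) hl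
    rw [show (Matrix.diagonal fun _ : Fin 3 => (1 : ℝ)) = 1 from Matrix.diagonal_one,
      map_mmap_one] at this
    exact this

lemma PP_neg2 : PP (Matrix.diagonal ![1, 1, -1]) := by
  apply PP_of_sign
  right
  exact ⟨by rw [det_diag3]; norm_num, fun l hl => Isotopic.refl _⟩

lemma PP_neg0 : PP (Matrix.diagonal ![-1, 1, 1]) := by
  apply PP_of_sign
  right
  refine ⟨by rw [det_diag3]; norm_num, fun l hl => ?_⟩
  have := rot_isotopic (fun t => !![Real.cos (Real.pi * t), 0, -Real.sin (Real.pi * t); 0, 1, 0;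
    Real.sin (Real.pi * t), 0, Real.cos (Real.pi * t)]) (by
      apply continuous_matrix
      intro i j
      fin_cases i <;> fin_cases j <;> simp <;> fun_prop) (by
      intro t
      rw [Matrix.det_fin_three]
      simp
      have := Real.cos_sq_add_sin_sq (Real.pi * t)
      nlinarith) (by
      ext i j
      fin_cases i <;> fin_cases j <;> simp) hl
  convert this using 4
  unfold refl3
  ext i j
  fin_cases i <;> fin_cases j <;> simp [Matrix.mul_apply, Fin.sum_univ_three]

lemma PP_neg1 : PP (Matrix.diagonal ![1, -1, 1]) := by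
  apply PP_of_sign
  right
  refine ⟨by rw [det_diag3]; norm_num, fun l hl => ?_⟩
  have := rot_isotopic (fun t => !![1, 0, 0; 0, Real.cos (Real.pi * t), -Real.sin (Real.pi * t);
    0, Real.sin (Real.pi * t), Real.cos (Real.pi * t)]) (by
      apply continuous_matrix
      intro i j
      fin_cases i <;> fin_cases j <;> simp <;> fun_prop) (by
      intro t
      rw [Matrix.det_fin_three]
      simp
      have := Real.cos_sq_add_sin_sq (Real.pi * t)
      nlinarith) (by
      ext i j
      fin_cases i <;> fin_cases j <;> simp) hl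
  convert this using 4
  unfold refl3
  ext i j
  fin_cases i <;> fin_cases j <;> simp [Matrix.mul_apply, Fin.sum_univ_three]

lemma PP_one : PP 1 := by
  rw [← Matrix.diagonal_one]
  exact PP_diag_pos (fun _ => one_pos)

lemma PP_diag {D : Fin 3 → ℝ} (h : (Matrix.diagonal D).det ≠ 0) : PP (Matrix.diagonal D) := by
  have hD : ∀ i, D i ≠ 0 := by
    intro i h0
    apply h
    rw [Matrix.det_diagonal]
    exact Finset.prod_eq_zero (Finset.mem_univ i) h0
  have hs : ∀ x : ℝ, x ≠ 0 → x = SignType.sign x * |x| := fun x _ => (sign_mul_abs x).symm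
  have e1 : Matrix.diagonal D = Matrix.diagonal ![(SignType.sign (D 0) : ℝ), 1, 1] *
      (Matrix.diagonal ![1, (SignType.sign (D 1) : ℝ), 1] *
      (Matrix.diagonal ![1, 1, (SignType.sign (D 2) : ℝ)] * Matrix.diagonal ![|D 0|, |D 1|, |D 2|])) := by
    rw [diag3_mul, diag3_mul, diag3_mul]
    congr 1
    funext i
    fin_cases i <;> simp
  have hsg : ∀ i, (SignType.sign (D i) : ℝ) ≠ 0 := by
    intro i h0
    have := hs _ (hD i)
    rw [h0, zero_mul] at this
    exact hD i this
  have p3 : PP (Matrix.diagonal ![|D 0|, |D 1|, |D 2|]) := by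
    apply PP_diag_pos
    intro i
    fin_cases i <;> simpa using hD _
  have hd3 : (Matrix.diagonal ![|D 0|, |D 1|, |D 2|]).det ≠ 0 := by
    rw [det_diag3]
    have := hD 0; have := hD 1; have := hD 2
    positivity
  have q0 : PP (Matrix.diagonal ![(SignType.sign (D 0) : ℝ), 1, 1]) := by
    rcases lt_or_gt_of_ne (hD 0) with h1 | h1
    · rw [sign_neg h1]; simpa using PP_neg0
    · rw [sign_pos h1]; simpa [← one_eq_diag3] using PP_one
  have q1 : PP (Matrix.diagonal ![1, (SignType.sign (D 1) : ℝ), 1]) := by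
    rcases lt_or_gt_of_ne (hD 1) with h1 | h1
    · rw [sign_neg h1]; simpa using PP_neg1
    · rw [sign_pos h1]; simpa [← one_eq_diag3] using PP_one
  have q2 : PP (Matrix.diagonal ![1, 1, (SignType.sign (D 2) : ℝ)]) := by
    rcases lt_or_gt_of_ne (hD 2) with h1 | h1
    · rw [sign_neg h1]; simpa using PP_neg2
    · rw [sign_pos h1]; simpa [← one_eq_diag3] using PP_one
  have d0 : (Matrix.diagonal ![(SignType.sign (D 0) : ℝ), 1, 1]).det ≠ 0 := by
    rw [det_diag3]; simpa using hsg 0
  have d1 : (Matrix.diagonal ![1, (SignType.sign (D 1) : ℝ), 1]).det ≠ 0 := by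
    rw [det_diag3]; simpa using hsg 1
  have d2 : (Matrix.diagonal ![1, 1, (SignType.sign (D 2) : ℝ)]).det ≠ 0 := by
    rw [det_diag3]; simpa using hsg 2
  rw [e1]
  exact PP_mul d0 (by rw [Matrix.det_mul, Matrix.det_mul]; exact mul_ne_zero d1 (mul_ne_zero d2 hd3))
    q0 (PP_mul d1 (by rw [Matrix.det_mul]; exact mul_ne_zero d2 hd3) q1 (PP_mul d2 hd3 q2 p3))

lemma PP_transvection (t : Matrix.TransvectionStruct (Fin 3) ℝ) : PP t.toMatrix := by
  apply PP_of_sign
  left
  refine ⟨by rw [Matrix.TransvectionStruct.det]; norm_num, fun l hl => ?_⟩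
  have := isotopic_of_matrix_path (fun s => Matrix.transvection t.i t.j (s * t.c)) (by
      unfold Matrix.transvection
      apply continuous_const.add
      apply continuous_matrix
      intro i j
      simp only [Matrix.single_apply]
      split_ifs
      · fun_prop
      · fun_prop) (by
      intro s _
      rw [Matrix.det_transvection_of_ne _ _ t.hij]; norm_num) hl
  simp only [zero_mul, one_mul, Matrix.transvection_zero, map_mmap_one] at this
  exact this

lemma PP_all (M : Matrix (Fin 3) (Fin 3) ℝ) (h : M.det ≠ 0) : PP M :=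
  Matrix.diagonal_transvection_induction_of_det_ne_zero PP M h (fun _ hD => PP_diag hD)
    PP_transvection (fun _ _ hA hB pA pB => PP_mul hA hB pA pB)

theorem isotopic_map_affine (T : R3 →ᵃ[ℝ] R3) (hT : 0 < LinearMap.det T.linear) {l : List R3}
    (hl : IsKnot l) : Isotopic l (l.map T) := by
  set M := LinearMap.toMatrix' T.linear with hM
  have hdet : M.det = LinearMap.det T.linear := LinearMap.det_toMatrix' _
  have hM0 : M.det ≠ 0 := by rw [hdet]; exact hT.ne'
  have h1 := (PP_all M hM0).1 (by rw [hdet]; exact hT) l hl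
  -- translation
  have h2 := isotopic_of_affine_path
    (fun t => AffineMap.id ℝ R3 + AffineMap.const ℝ R3 (t • T 0)) (by
      intro x
      apply Continuous.continuousOn
      simp only [AffineMap.coe_add, Pi.add_apply, AffineMap.id_apply, AffineMap.const_apply]
      fun_prop) (by
      intro t _ x y hxy
      simpa using hxy) (isKnot_map_mmap hl hM0)
  refine h1.trans ?_
  have e0 : (l.map (mmap M)).map (⇑(AffineMap.id ℝ R3 + AffineMap.const ℝ R3 ((0 : ℝ) • T 0))) =
      l.map (mmap M) := by
    conv_rhs => rw [← List.map_id (l.map (mmap M))]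
    congr 1
    funext x
    simp
  have e1 : (l.map (mmap M)).map (⇑(AffineMap.id ℝ R3 + AffineMap.const ℝ R3 ((1 : ℝ) • T 0))) =
      l.map T := by
    rw [List.map_map]
    congr 1
    funext x
    have h3 : T x = T.linear x + T 0 := by
      have := T.linearMap_vsub x 0
      simp at this
      rw [this]; simp
    rw [h3]
    simp [mmap_apply, hM]
  rw [e0, e1] at h2
  exact h2

end Pool.Agent.LinKnot
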