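import Pool.Agent.Lib.MP_188a32_co_helper88.TaskD

/-!
# Task H: general position and the closing argument
-/

set_option autoImplicit false

namespace Pool.Agent.LinKnot

open scoped Classical Topology

lemma fin_ne_add_two {m : ℕ} (i : Fin (m + 3)) : i ≠ i + 2 := by
  intro h0
  have h2 : (2 : Fin (m + 3)) = 0 := by simpa using h0.symm
  have := congrArg Fin.val h2
  have v2 : (2 : Fin (m + 3)).val = 2 := rfl
  have v0 : (0 : Fin (m + 3)).val = 0 := rfl
  omega

lemma fin_ne_add_one {m : ℕ} (i : Fin (m + 3)) : i ≠ i + 1 := by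
  intro h0
  have : (1 : Fin (m + 3)) = 0 := by simpa using h0.symm
  simp at this

lemma isKnot_of_embedding {n m : ℕ} {p : Fin n → R3} (hp : IsLinearEmbedding p)
    {γ : Fin (m + 3) → Fin n} (hγ : Function.Injective γ) :
    IsKnot (List.ofFn fun i => p (γ i)) := by
  rw [isKnot_iff]
  refine ⟨by simp, List.nodup_ofFn.2 (hp.1.comp hγ), ?_⟩
  intro e he f hf hne
  rw [edges_ofFn, List.mem_ofFn] at he hf
  obtain ⟨i, rfl⟩ := he
  obtain ⟨j, rfl⟩ := hf
  have hij : i ≠ j := by rintro rfl; exact hne rfl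
  refine hp.2 _ _ _ _ (fun h0 => fin_ne_add_one i (hγ h0)) (fun h0 => fin_ne_add_one j (hγ h0)) ?_
  intro h0
  rw [Sym2.eq_iff] at h0
  rcases h0 with ⟨h1, -⟩ | ⟨h1, h2⟩
  · exact hij (hγ h1)
  · have h3 := hγ h1
    have h4 := hγ h2
    apply fin_ne_add_two j
    have h5 : j + 2 = j + 1 + 1 := (add_assoc j 1 1).symm
    exact h4.symm.trans ((congrArg (· + 1) h3).trans h5.symm)

lemma list_eq_ofFn {n : ℕ} {c : List (Fin n)} (h3 : 3 ≤ c.length) (hn : c.Nodup) :
    ∃ (m : ℕ) (γ : Fin (m + 3) → Fin n), Function.Injective γ ∧ c = List.ofFn γ := by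
  obtain ⟨m, hm⟩ : ∃ m, c.length = m + 3 := ⟨c.length - 3, by omega⟩
  refine ⟨m, fun i => c.get (i.cast hm.symm), ?_, ?_⟩
  · intro i j hij
    have := List.nodup_iff_injective_get.1 hn hij
    simpa using this
  · apply List.ext_getElem
    · rw [List.length_ofFn, hm]
    · intro i h1 h2
      rw [List.getElem_ofFn]
      rfl

/-- points on the moment curve -/
def moment (i : ℕ) : R3 := ![(i : ℝ), (i : ℝ) ^ 2, (i : ℝ) ^ 3]

lemma orient_moment (i j k l : ℕ) : orient (moment i) (moment j) (moment k) (moment l) =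
    ((j : ℝ) - i) * (k - i) * (l - i) * (k - j) * (l - j) * (l - k) := by
  simp only [orient, moment, Matrix.cons_val_zero, Matrix.cons_val_one, Matrix.cons_val]
  ring

lemma orient_smul (x : ℝ) (p q r s : R3) :
    orient (x • p) (x • q) (x • r) (x • s) = x ^ 3 * orient p q r s := by
  simp only [orient, Pi.smul_apply, smul_eq_mul]; ring

/-- for large `s` the points `s p + m` are in general position -/
lemma eventually_orient_ne (p q r s p' q' r' s' : R3) (h : orient p' q' r' s' ≠ 0) :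
    ∀ᶠ x : ℝ in Filter.atTop, orient (x • p + p') (x • q + q') (x • r + r') (x • s + s') ≠ 0 := by
  open Polynomial in
  let f : R3 → R3 → Fin 3 → ℝ[X] := fun p p' i => X * C (p i) + C (p' i)
  let P : Polynomial ℝ :=
    (f q q' 0 - f p p' 0) * ((f r r' 1 - f p p' 1) * (f s s' 2 - f p p' 2) -
      (f r r' 2 - f p p' 2) * (f s s' 1 - f p p' 1))
    - (f q q' 1 - f p p' 1) * ((f r r' 0 - f p p' 0) * (f s s' 2 - f p p' 2) -
      (f r r' 2 - f p p' 2) * (f s s' 0 - f p p' 0))
    + (f q q' 2 - f p p' 2) * ((f r r' 0 - f p p' 0) * (f s s' 1 - f p p' 1) -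
      (f r r' 1 - f p p' 1) * (f s s' 0 - f p p' 0))
  have hP : ∀ x, P.eval x = orient (x • p + p') (x • q + q') (x • r + r') (x • s + s') := by
    intro x
    simp only [P, f, orient, Polynomial.eval_add, Polynomial.eval_sub, Polynomial.eval_mul,
      Polynomial.eval_X, Polynomial.eval_C, Pi.add_apply, Pi.smul_apply, smul_eq_mul]
  have hP0 : P ≠ 0 := by
    intro h0
    apply h
    have := hP 0
    rw [h0] at this
    simpa using this.symm
  filter_upwards [Polynomial.eventually_atTop_not_isRoot P hP0] with x hx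
  rw [← hP]
  exact hx

theorem exists_general_position {n : ℕ} (p : Fin n → R3) (hp : IsLinearEmbedding p) :
    ∃ q : Fin n → R3, (∀ i j k l : Fin n, i ≠ j → i ≠ k → i ≠ l → j ≠ k → j ≠ l → k ≠ l →
      orient (q i) (q j) (q k) (q l) ≠ 0) ∧
      ∀ c : List (Fin n), 3 ≤ c.length → c.Nodup → Isotopic (c.map p) (c.map q) := by
  -- all isotopies hold near `p`
  have h1 : ∀ᶠ q in 𝓝 p, ∀ c ∈ {c : List (Fin n) | c.length ≤ n}, 3 ≤ c.length → c.Nodup →
      Isotopic (c.map p) (c.map q) := by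
    rw [Set.Finite.eventually_all (List.finite_length_le (Fin n) n)]
    intro c _
    rw [Filter.eventually_imp_distrib_left]; intro h3
    rw [Filter.eventually_imp_distrib_left]; intro hn
    obtain ⟨m, γ, hγ, rfl⟩ := list_eq_ofFn h3 hn
    have h4 := eventually_isotopic (fun i => p (γ i)) (isKnot_of_embedding hp hγ)
    have h5 : Filter.Tendsto (fun q : Fin n → R3 => fun i => q (γ i)) (𝓝 p)
        (𝓝 (fun i => p (γ i))) := by
      have : Continuous (fun q : Fin n → R3 => fun i => q (γ i)) := by fun_prop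
      exact this.tendsto p
    filter_upwards [h5.eventually h4] with q hq
    have e : ∀ q : Fin n → R3, (List.ofFn γ).map q = List.ofFn fun i => q (γ i) := by
      intro q; rw [List.map_ofFn]; rfl
    rw [e, e]
    exact hq.2
  -- a path of configurations which is eventually in general position
  set Q : ℝ → Fin n → R3 := fun x i => p i + x⁻¹ • moment i with hQ
  have h2 : Filter.Tendsto Q Filter.atTop (𝓝 p) := by
    rw [tendsto_pi_nhds]
    intro i
    have : Filter.Tendsto (fun x : ℝ => p i + x⁻¹ • moment i) Filter.atTop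
        (𝓝 (p i + (0 : ℝ) • moment i)) :=
      tendsto_const_nhds.add (tendsto_inv_atTop_zero.smul tendsto_const_nhds)
    simpa using this
  have h3 : ∀ᶠ x : ℝ in Filter.atTop, ∀ i j k l : Fin n, i ≠ j → i ≠ k → i ≠ l → j ≠ k → j ≠ l →
      k ≠ l → orient (Q x i) (Q x j) (Q x k) (Q x l) ≠ 0 := by
    rw [Filter.eventually_all]; intro i
    rw [Filter.eventually_all]; intro j
    rw [Filter.eventually_all]; intro k
    rw [Filter.eventually_all]; intro l
    by_cases hc : i ≠ j ∧ i ≠ k ∧ i ≠ l ∧ j ≠ k ∧ j ≠ l ∧ k ≠ l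
    · obtain ⟨a1, a2, a3, a4, a5, a6⟩ := hc
      have h4 := eventually_orient_ne (p i) (p j) (p k) (p l) (moment i) (moment j) (moment k)
        (moment l) (by
          rw [orient_moment]
          have cast : ∀ {i j : Fin n}, i ≠ j → ((j : ℕ) : ℝ) - ((i : ℕ) : ℝ) ≠ 0 := by
            intro i j hij h0
            apply hij
            have : ((j : ℕ) : ℝ) = ((i : ℕ) : ℝ) := by linarith
            exact (Fin.ext (by exact_mod_cast this)).symm
          exact mul_ne_zero (mul_ne_zero (mul_ne_zero (mul_ne_zero (mul_ne_zero (cast a1)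
            (cast a2)) (cast a3)) (cast a4)) (cast a5)) (cast a6))
      filter_upwards [h4, Filter.eventually_gt_atTop 0] with x hx hx0 _ _ _ _ _ _
      have e : ∀ i : Fin n, Q x i = x⁻¹ • (x • p i + moment i) := by
        intro i
        rw [hQ, smul_add, smul_smul, inv_mul_cancel₀ hx0.ne', one_smul]
      rw [e, e, e, e, orient_smul]
      exact mul_ne_zero (pow_ne_zero _ (inv_ne_zero hx0.ne')) hx
    · filter_upwards with x a1 a2 a3 a4 a5 a6
      exact absurd ⟨a1, a2, a3, a4, a5, a6⟩ hc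
  obtain ⟨x, hx1, hx2⟩ := ((h2.eventually h1).and h3).exists
  refine ⟨Q x, hx2, fun c h4 hn => hx1 c ?_ h4 hn⟩
  have := hn.length_le_card
  simpa using this

/-- the closing argument -/
theorem main_of (hhom : ∃ C d : ℕ, ∀ m n : ℕ, 1 ≤ m → C * m ^ d ≤ n → ∀ p : Fin n → R3,
    (∀ i j k l : Fin n, i ≠ j → i ≠ k → i ≠ l → j ≠ k → j ≠ l → k ≠ l →
      orient (p i) (p j) (p k) (p l) ≠ 0) →
    ∃ a b : Fin m → Fin n, ∀ i j k l : Fin m, i < j → k < l →
      0 < orient (p (a i)) (p (a j)) (p (b k)) (p (b l)))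
    (harc : ∀ {l : List R3} {k : ℕ}, IsDiagram l k →
      ∃ (m : ℕ) (a b : ℕ → R3) (c : List (ℕ × ℕ)), m ≤ 2 * k + 2 ∧ Pos m a b ∧ ValidCode m c ∧
        Isotopic l (zig a b c)) :
    ∃ C d : ℕ, ∀ k : ℕ, 3 ≤ k → ∀ K : List R3, IsKnot K → CrossingNumber K k →
      ∃ n ≤ C * k ^ d, ∀ p : Fin n → R3, IsLinearEmbedding p → Contains p K := by
  obtain ⟨C, d, hC⟩ := hhom
  refine ⟨C * 4 ^ d, d, fun k hk K hK ⟨⟨l, hl, hd⟩, _⟩ => ⟨C * (2 * k + 2) ^ d, ?_, ?_⟩⟩
  · rw [mul_assoc, ← mul_pow]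
    exact Nat.mul_le_mul_left _ (Nat.pow_le_pow_left (by omega) _)
  intro p hp
  obtain ⟨q, hq, hiso⟩ := exists_general_position p hp
  obtain ⟨m, a, b, c, hm, hpos, hc, hi⟩ := harc hd
  obtain ⟨a', b', hab⟩ := hC (2 * k + 2) _ (by omega) le_rfl q hq
  -- indices
  set α : ℕ → Fin (C * (2 * k + 2) ^ d) := fun i =>
    if h : i < 2 * k + 2 then a' ⟨i, h⟩ else a' ⟨0, by omega⟩ with hα
  set β : ℕ → Fin (C * (2 * k + 2) ^ d) := fun i =>
    if h : i < 2 * k + 2 then b' ⟨i, h⟩ else b' ⟨0, by omega⟩ with hβ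
  have hPos : Pos m (fun i => q (α i)) (fun i => q (β i)) := by
    intro i j r s hij hj hrs hs
    simp only [hα, hβ]
    rw [dif_pos (by omega : i < 2 * k + 2), dif_pos (by omega : j < 2 * k + 2),
      dif_pos (by omega : r < 2 * k + 2), dif_pos (by omega : s < 2 * k + 2)]
    exact hab _ _ _ _ hij hrs
  have hmap : ∀ (q : Fin (C * (2 * k + 2) ^ d) → R3) (c : List (ℕ × ℕ)),
      (c.flatMap fun x => [α x.1, β x.2]).map q = zig (fun i => q (α i)) (fun i => q (β i)) c := by
    intro q c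
    unfold zig
    rw [List.map_flatMap]
    rfl
  have hkn := pos_isKnot hPos hc
  set c' := c.flatMap fun x => [α x.1, β x.2] with hc'
  have hnod : c'.Nodup := by
    apply List.Nodup.of_map q
    rw [hc', hmap]
    exact hkn.nodup
  have hlen : 3 ≤ c'.length := by
    have := hkn.length
    rw [← hmap, List.length_map] at this
    exact this
  refine ⟨c', hlen, hnod, ?_⟩
  have h1 := hiso c' hlen hnod
  rw [hc', hmap q] at h1
  rw [hc']
  exact ((h1.trans (pos_isotopic hPos hpos hc)).trans hi.symm).trans hl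

end Pool.Agent.LinKnot
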