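import Pool.Agent.Lib.MP_188a32_co.Moves

/-!
# Moving one vertex of a polygonal knot a little
-/

set_option autoImplicit false

namespace Pool.Agent.LinKnot

open scoped Classical Topology

/-- points of a triangle -/
lemma mem_tri {x y z p : R3} (h : p ∈ convexHull ℝ ({x, y, z} : Set R3)) :
    ∃ a b c : ℝ, 0 ≤ a ∧ 0 ≤ b ∧ 0 ≤ c ∧ a + b + c = 1 ∧ p = a • x + b • y + c • z := by
  rw [← convexJoin_singleton_segment, mem_convexJoin] at h
  obtain ⟨x', rfl, q, ⟨a, b, ha, hb, hab, rfl⟩, ⟨c, d, hc, hd, hcd, rfl⟩⟩ := h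
  refine ⟨c, d * a, d * b, hc, mul_nonneg hd ha, mul_nonneg hd hb, ?_, by module⟩
  rw [add_assoc, ← mul_add, hab]; linarith

/-- Quantitative transversality of two edges `v u`, `v w` with a common end `v`. -/
def Fan (η : ℝ) (v u w : R3) : Prop :=
  ∀ s r : ℝ, 0 ≤ s → 0 ≤ r → η * max s r ≤ ‖s • (u - v) - r • (w - v)‖

lemma Fan.symm {η : ℝ} {v u w : R3} (h : Fan η v u w) : Fan η v w u := by
  intro s r hs hr
  rw [norm_sub_rev, max_comm]
  exact h r s hr hs

lemma Fan.zero {η : ℝ} (hη : 0 < η) {v u w : R3} (h : Fan η v u w) {s r : ℝ} (hs : 0 ≤ s)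
    (hr : 0 ≤ r) (he : s • (u - v) = r • (w - v)) : s = 0 ∧ r = 0 := by
  have h1 := h s r hs hr
  rw [he, sub_self, norm_zero] at h1
  have h2 : max s r ≤ 0 := by
    by_contra h2
    push Not at h2
    have := mul_pos hη h2
    linarith
  exact ⟨le_antisymm ((le_max_left _ _).trans h2) hs, le_antisymm ((le_max_right _ _).trans h2) hr⟩

lemma Fan.left {η : ℝ} {v u w : R3} (h : Fan η v u w) : η ≤ ‖u - v‖ := by
  have := h 1 0 zero_le_one le_rfl
  simpa using this

lemma Fan.right {η : ℝ} {v u w : R3} (h : Fan η v u w) : η ≤ ‖w - v‖ := h.symm.left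

/-- `v'` may be inserted into the edge `u v` first. -/
def OptA (v u w v' : R3) : Prop :=
  (∀ α β : ℝ, 0 ≤ α → 0 ≤ β → w - v ≠ α • (u - v) + β • (v' - v)) ∧
  (∀ κ : ℝ, 0 ≤ κ → u - v ≠ -(κ • (v' - v)))

lemma opt_or {η : ℝ} (hη : 0 < η) {v u w v' : R3} (h : Fan η v u w) :
    OptA v u w v' ∨ OptA v w u v' := by
  have key : ∀ u w : R3, Fan η v u w → (∃ κ : ℝ, 0 ≤ κ ∧ u - v = -(κ • (v' - v))) →
      OptA v w u v' := by
    rintro u w h ⟨κ, hκ, he⟩
    refine ⟨fun α β hα hβ h1 => ?_, fun κ' hκ' h1 => ?_⟩
    · -- `u - v = α (w - v) + β (v' - v)` and `u - v = - κ (v' - v)`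
      have h2 : (κ + β) • (u - v) = (κ * α) • (w - v) := by
        have : (κ + β) • (u - v) = κ • (u - v) + β • (u - v) := by module
        rw [this]
        nth_rewrite 1 [h1]
        rw [he]
        module
      obtain ⟨h3, h4⟩ := h.zero hη (by positivity) (by positivity) h2
      have hκ0 : κ = 0 := by linarith
      rw [hκ0, zero_smul, neg_zero] at he
      have := h.left
      rw [he, norm_zero] at this
      linarith
    · have h2 : κ' • (u - v) = κ • (w - v) := by
        rw [he, h1]; module
      obtain ⟨h3, h4⟩ := h.zero hη hκ' hκ h2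
      rw [h4, zero_smul, neg_zero] at he
      have := h.left
      rw [he, norm_zero] at this
      linarith
  by_cases hA2 : ∃ κ : ℝ, 0 ≤ κ ∧ u - v = -(κ • (v' - v))
  · exact Or.inr (key u w h hA2)
  by_cases hB2 : ∃ κ : ℝ, 0 ≤ κ ∧ w - v = -(κ • (v' - v))
  · exact Or.inl (key w u h.symm hB2)
  push Not at hA2 hB2
  by_cases hA1 : ∃ α β : ℝ, 0 ≤ α ∧ 0 ≤ β ∧ w - v = α • (u - v) + β • (v' - v)
  · right
    refine ⟨fun γ δ hγ hδ h1 => ?_, hB2⟩
    obtain ⟨α, β, hα, hβ, h2⟩ := hA1
    have h3 : (β + δ * α) • (u - v) = (δ + β * γ) • (w - v) := by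
      have e1 : β • (u - v) = β • (γ • (w - v) + δ • (v' - v)) := by rw [← h1]
      have e2 : δ • (w - v) = δ • (α • (u - v) + β • (v' - v)) := by rw [← h2]
      have e3 : (β + δ * α) • (u - v) = β • (u - v) + (δ * α) • (u - v) := by module
      have e4 : (δ + β * γ) • (w - v) = δ • (w - v) + (β * γ) • (w - v) := by module
      rw [e3, e4, e1, e2]; module
    obtain ⟨h4, h5⟩ := h.zero hη (by positivity) (by positivity) h3
    have hβ0 : β = 0 := by nlinarith [mul_nonneg hδ hα]
    rw [hβ0, zero_smul, add_zero] at h2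
    obtain ⟨h6, h7⟩ := h.zero hη hα zero_le_one (by rw [one_smul]; exact h2.symm)
    linarith
  · push Not at hA1
    exact Or.inl ⟨fun α β hα hβ => hA1 α β hα hβ, hA2⟩

/-- the third condition follows -/
lemma OptA.third {η : ℝ} (hη : 0 < η) {v u w v' : R3} (h : Fan η v u w) (hA : OptA v u w v')
    (hd : ‖v' - v‖ < η) {s α β : ℝ} (hs : 0 ≤ s) (hα : 0 ≤ α) (hβ : 0 ≤ β)
    (he : s • (u - v') = α • (v - v') + β • (w - v')) : s = 0 := by
  by_contra hs0
  have hs' : 0 < s := lt_of_le_of_ne hs (Ne.symm hs0)
  -- `s a - β c = (s - α - β) d`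
  have h1 : s • (u - v) - β • (w - v) = (s - α - β) • (v' - v) := by
    have e1 : s • (u - v) = s • (u - v') + s • (v' - v) := by module
    rw [e1, he]; module
  rcases le_or_gt 0 (s - α - β) with h2 | h2
  · have h3 := h s β hs hβ
    rw [h1, norm_smul, Real.norm_of_nonneg h2] at h3
    have h4 : (s - α - β) * ‖v' - v‖ ≤ s * ‖v' - v‖ :=
      mul_le_mul_of_nonneg_right (by linarith) (norm_nonneg _)
    have h5 : s * ‖v' - v‖ < s * η := mul_lt_mul_of_pos_left hd hs'
    have h6 : η * s ≤ η * max s β := mul_le_mul_of_nonneg_left (le_max_left _ _) hη.le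
    nlinarith
  · rcases hβ.lt_or_eq with hβ' | hβ'
    · -- `c = (s/β) a + ((α+β-s)/β) d`
      apply hA.1 (s / β) ((α + β - s) / β) (by positivity)
        (div_nonneg (by linarith) hβ)
      have e1 : β • (w - v) = s • (u - v) + (α + β - s) • (v' - v) := by
        have : s • (u - v) = β • (w - v) + (s - α - β) • (v' - v) := by rw [← h1]; module
        rw [this]; module
      have e2 : w - v = β⁻¹ • (β • (w - v)) := by
        rw [smul_smul, inv_mul_cancel₀ hβ'.ne', one_smul]
      rw [e2, e1]
      rw [smul_add, smul_smul, smul_smul, div_eq_inv_mul, div_eq_inv_mul]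
    · subst hβ'
      apply hA.2 ((α - s) / s) (div_nonneg (by linarith) hs)
      have e1 : s • (u - v) = -((α - s) • (v' - v)) := by
        rw [zero_smul, sub_zero, sub_zero] at h1
        rw [h1]; module
      have e2 : u - v = s⁻¹ • (s • (u - v)) := by
        rw [smul_smul, inv_mul_cancel₀ hs'.ne', one_smul]
      rw [e2, e1, div_eq_inv_mul, smul_neg, smul_smul]

/-- Vertex move, first case. -/
lemma vertex_moveA {η : ℝ} (hη : 0 < η) {v u w v' : R3} {t : List R3}
    (hk : IsKnot (u :: v :: w :: t)) (hne : v' ≠ v)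
    (F1 : ∀ e ∈ pathEdges (w :: t ++ [u]), convexHull ℝ {u, v, v'} ∩ seg e ⊆ {u})
    (F2 : ∀ e ∈ pathEdges (w :: t ++ [u]), convexHull ℝ {w, v, v'} ∩ seg e ⊆ {w})
    (h : Fan η v u w) (hd : ‖v' - v‖ < η) (hA : OptA v u w v') :
    IsKnot (u :: v' :: w :: t) ∧ Isotopic (u :: v :: w :: t) (u :: v' :: w :: t) := by
  have hu : v' ≠ u := by
    rintro rfl
    have := h.left
    linarith
  have hw : v' ≠ w := by
    rintro rfl
    have := h.right
    linarith
  have hnot : v' ∉ u :: v :: w :: t := by
    simp only [List.mem_cons, not_or]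
    refine ⟨hu, hne, hw, fun hmem => ?_⟩
    -- `v'` is an end of an edge of the path
    obtain ⟨e, he, hve⟩ : ∃ e ∈ pathEdges (w :: t ++ [u]), v' ∈ seg e := by
      have h1 : v' ∈ w :: t ++ [u] := by simp [hmem]
      have hlen : 2 ≤ (w :: t ++ [u]).length := by simp
      generalize w :: t ++ [u] = l at h1 hlen
      clear * - h1 hlen
      induction l with
      | nil => simp at h1
      | cons a l ih =>
        cases l with
        | nil => simp at hlen
        | cons b l =>
          rw [pathEdges_cons_cons]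
          rcases List.mem_cons.1 h1 with rfl | h1
          · exact ⟨_, List.mem_cons_self, left_mem_seg _⟩
          cases l with
          | nil =>
            simp only [List.mem_singleton] at h1
            subst h1
            exact ⟨_, List.mem_cons_self, right_mem_seg _⟩
          | cons c l =>
            obtain ⟨e, he, hv⟩ := ih h1 (by simp)
            exact ⟨e, List.mem_cons_of_mem _ he, hv⟩
    have := F1 e he ⟨subset_convexHull ℝ _ (by simp), hve⟩
    exact hu this
  -- insert `v'` between `u` and `v`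
  obtain ⟨k1, i1⟩ := isotopic_insert (z := v') hk hnot (by
    intro e he
    rw [show v :: (w :: t) ++ [u] = v :: w :: (t ++ [u]) by simp, pathEdges_cons_cons,
      List.mem_cons] at he
    rcases he with rfl | he
    · rintro p ⟨hp, c, d, hc, hd', hcd, hp'⟩
      obtain ⟨x, y, z, hx, hy, hz, hxyz, rfl⟩ := mem_tri hp
      simp only at hp'
      have e1 : d • (w - v) = x • (u - v) + z • (v' - v) := by
        have h1 : c = 1 - d := by linarith
        have h2 : y = 1 - x - z := by linarith
        have h3 : d • (w - v) = (c • v + d • w) - v := by rw [h1]; module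
        rw [h3, hp', h2]; module
      rcases hd'.lt_or_eq with hd0 | hd0
      · exfalso
        apply hA.1 (x / d) (z / d) (by positivity) (by positivity)
        have e2 : w - v = d⁻¹ • (d • (w - v)) := by
          rw [smul_smul, inv_mul_cancel₀ hd0.ne', one_smul]
        rw [e2, e1, smul_add, smul_smul, smul_smul, div_eq_inv_mul, div_eq_inv_mul]
      · right
        rw [Set.mem_singleton_iff, ← hp', ← hd0, show c = 1 by linarith]; simp
    · exact (F1 e he).trans (by simp)) (by
    rintro p ⟨⟨c, d, hc, hd', hcd, rfl⟩, ⟨c', d', hc', hd'', hcd', hp'⟩⟩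
    simp only at hp' ⊢
    rw [Set.mem_singleton_iff]
    -- `c u + d v' = c' v' + d' v`
    have e1 : c • (u - v) = -((d' - c) • (v' - v)) := by
      have h1 : d = 1 - c := by linarith
      have h2 : c' = 1 - d' := by linarith
      have h3 : c • (u - v) = (c • u + d • v') - d • v' - c • v := by module
      rw [h3, ← hp', h1, h2]; module
    rcases hc.lt_or_eq with hc0 | hc0
    · exfalso
      rcases le_or_gt 0 (d' - c) with h3 | h3
      · apply hA.2 ((d' - c) / c) (div_nonneg h3 hc)
        have e2 : u - v = c⁻¹ • (c • (u - v)) := by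
          rw [smul_smul, inv_mul_cancel₀ hc0.ne', one_smul]
        rw [e2, e1, div_eq_inv_mul, smul_neg, smul_smul]
      · have h4 := congrArg norm e1
        rw [norm_neg, norm_smul, norm_smul, Real.norm_of_nonneg hc, Real.norm_of_nonpos h3.le] at h4
        have h5 := h.left
        have h6 : c * η ≤ c * ‖u - v‖ := mul_le_mul_of_nonneg_left h5 hc
        have h7 : -(d' - c) * ‖v' - v‖ ≤ c * ‖v' - v‖ :=
          mul_le_mul_of_nonneg_right (by linarith) (norm_nonneg _)
        have h8 : c * ‖v' - v‖ < c * η := mul_lt_mul_of_pos_left hd hc0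
        linarith
    · rw [← hc0, show d = 1 by linarith]; simp)
  -- rotate and remove `v`
  have k2 : IsKnot (v' :: v :: w :: (t ++ [u])) := by
    have := isKnot_append_comm (s := [u]) (t := v' :: v :: w :: t) (by simpa using k1)
    simpa using this
  have i2 : Isotopic (u :: v' :: v :: w :: t) (v' :: v :: w :: (t ++ [u])) := by
    have := isotopic_append_comm [u] (v' :: v :: w :: t)
    simpa using this
  obtain ⟨k3, i3⟩ := isotopic_remove (t := t ++ [u]) k2 (by simp) (by
    intro e he
    rw [show w :: (t ++ [u]) ++ [v'] = (w :: t) ++ u :: [v'] by simp, pathEdges_append,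
      List.mem_append] at he
    rcases he with he | he
    · intro p hp
      have := F2 e he ⟨by
        have h1 : ({v', w, v} : Set R3) = {w, v, v'} := by
          ext q; simp only [Set.mem_insert_iff, Set.mem_singleton_iff]; tauto
        rw [← h1]; exact hp.1, hp.2⟩
      exact Or.inr this
    · simp only [pathEdges_cons_cons, pathEdges_single, List.mem_singleton] at he
      subst he
      rintro p ⟨hp, c, d, hc, hd', hcd, hp'⟩
      obtain ⟨x, y, z, hx, hy, hz, hxyz, rfl⟩ := mem_tri hp
      simp only at hp'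
      have e1 : c • (u - v') = z • (v - v') + y • (w - v') := by
        have h1 : d = 1 - c := by linarith
        have h2 : x = 1 - y - z := by linarith
        have h3 : c • (u - v') = (c • u + d • v') - v' := by rw [h1]; module
        rw [h3, hp', h2]; module
      have hc0 := hA.third hη h hd hc hz hy e1
      left
      rw [← hp', hc0, show d = 1 by linarith]; simp)
  have i4 : Isotopic (v' :: w :: (t ++ [u])) (u :: v' :: w :: t) := by
    have := isotopic_append_comm (v' :: w :: t) [u]
    simpa using this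
  have k4 : IsKnot (u :: v' :: w :: t) := by
    have := isKnot_append_comm (s := v' :: w :: t) (t := [u]) (by simpa using k3)
    simpa using this
  exact ⟨k4, ((i1.trans i2).trans i3).trans i4⟩

lemma reverse_form (u v w : R3) (t : List R3) :
    (IsKnot (u :: v :: w :: t) → IsKnot (w :: v :: u :: t.reverse)) ∧
      Isotopic (u :: v :: w :: t) (w :: v :: u :: t.reverse) := by
  have h1 : (u :: v :: w :: t).reverse = t.reverse ++ [w, v, u] := by simp
  constructor
  · intro h
    have h2 := h.reverse
    rw [h1] at h2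
    have := isKnot_append_comm h2
    simpa using this
  · have h2 := isotopic_reverse (u :: v :: w :: t)
    rw [h1] at h2
    have := h2.trans (isotopic_append_comm _ _)
    simpa using this

/-- Vertex move. -/
lemma vertex_move {η : ℝ} (hη : 0 < η) {v u w v' : R3} {t : List R3}
    (hk : IsKnot (u :: v :: w :: t))
    (F1 : ∀ e ∈ pathEdges (w :: t ++ [u]), convexHull ℝ {u, v, v'} ∩ seg e ⊆ {u})
    (F2 : ∀ e ∈ pathEdges (w :: t ++ [u]), convexHull ℝ {w, v, v'} ∩ seg e ⊆ {w})
    (h : Fan η v u w) (hd : ‖v' - v‖ < η) :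
    IsKnot (u :: v' :: w :: t) ∧ Isotopic (u :: v :: w :: t) (u :: v' :: w :: t) := by
  by_cases hne : v' = v
  · subst hne; exact ⟨hk, Isotopic.refl _⟩
  rcases opt_or hη h (v' := v') with hA | hB
  · exact vertex_moveA hη hk hne F1 F2 h hd hA
  · have r1 := reverse_form u v w t
    have r2 := reverse_form w v' u t.reverse
    have hp : ∀ e ∈ pathEdges (u :: t.reverse ++ [w]), e.swap ∈ pathEdges (w :: t ++ [u]) := by
      intro e he
      rw [show u :: t.reverse ++ [w] = (w :: t ++ [u]).reverse by simp, pathEdges_reverse,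
        List.mem_reverse, List.mem_map] at he
      obtain ⟨f, hf, rfl⟩ := he
      simpa using hf
    obtain ⟨k1, i1⟩ := vertex_moveA (t := t.reverse) hη (r1.1 hk) hne
      (fun e he => by simpa using F2 _ (hp e he)) (fun e he => by simpa using F1 _ (hp e he))
      h.symm hd hB
    rw [List.reverse_reverse] at r2
    exact ⟨r2.1 k1, (r1.2.trans i1).trans r2.2⟩

end Pool.Agent.LinKnot
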