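import Pool.Agent.Lib.MP_188a32_co_helper88.Affine

/-!
# Task D, second part: alternating polygons in arc position
-/

set_option autoImplicit false

namespace Pool.Agent.LinKnot

open scoped Classical Topology

/-- an affine dependence of four points with nonzero orientation is trivial -/
lemma orient_dep {p q r s : R3} (h : orient p q r s ≠ 0) {x y z w : ℝ} (h0 : x + y + z + w = 0)
    (h1 : x • p + y • q + z • r + w • s = 0) : x = 0 ∧ y = 0 ∧ z = 0 ∧ w = 0 := by
  have e : ∀ i, x * p i + y * q i + z * r i + w * s i = 0 := by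
    intro i
    have := congrFun h1 i
    simpa using this
  have hx : x = -(y + z + w) := by linarith
  have e' : ∀ i, y * (q i - p i) + z * (r i - p i) + w * (s i - p i) = 0 := by
    intro i
    have := e i
    rw [hx] at this
    linarith
  have e0 := e' 0
  have e1 := e' 1
  have e2 := e' 2
  have hy : y = 0 := by
    have : y * orient p q r s = 0 := by
      unfold orient
      linear_combination ((r 1 - p 1) * (s 2 - p 2) - (r 2 - p 2) * (s 1 - p 1)) * e0
        - ((r 0 - p 0) * (s 2 - p 2) - (r 2 - p 2) * (s 0 - p 0)) * e1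
        + ((r 0 - p 0) * (s 1 - p 1) - (r 1 - p 1) * (s 0 - p 0)) * e2
    exact (mul_eq_zero.1 this).resolve_right h
  have hz : z = 0 := by
    have : z * orient p q r s = 0 := by
      unfold orient
      linear_combination -((q 1 - p 1) * (s 2 - p 2) - (q 2 - p 2) * (s 1 - p 1)) * e0
        + ((q 0 - p 0) * (s 2 - p 2) - (q 2 - p 2) * (s 0 - p 0)) * e1
        - ((q 0 - p 0) * (s 1 - p 1) - (q 1 - p 1) * (s 0 - p 0)) * e2
    exact (mul_eq_zero.1 this).resolve_right h
  have hw : w = 0 := by
    have : w * orient p q r s = 0 := by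
      unfold orient
      linear_combination ((q 1 - p 1) * (r 2 - p 2) - (q 2 - p 2) * (r 1 - p 1)) * e0
        - ((q 0 - p 0) * (r 2 - p 2) - (q 2 - p 2) * (r 0 - p 0)) * e1
        + ((q 0 - p 0) * (r 1 - p 1) - (q 1 - p 1) * (r 0 - p 0)) * e2
    exact (mul_eq_zero.1 this).resolve_right h
  exact ⟨by rw [hx, hy, hz, hw]; simp, hy, hz, hw⟩

lemma seg_disj {p q r s : R3} (h : orient p q r s ≠ 0) : seg (p, r) ∩ seg (q, s) = ∅ := by
  rw [Set.eq_empty_iff_forall_notMem]
  rintro x ⟨⟨a, b, ha, hb, hab, rfl⟩, c, d, hc, hd, hcd, he⟩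
  simp only at he
  obtain ⟨h1, -, h3, -⟩ := orient_dep h (x := a) (y := -c) (z := b) (w := -d) (by linarith) (by
    have : a • p + -c • q + b • r + -d • s = (a • p + b • r) - (c • q + d • s) := by module
    rw [this, he, sub_self])
  linarith

lemma seg_left {p q r s : R3} (h : orient p q r s ≠ 0) : seg (p, r) ∩ seg (p, s) ⊆ {p} := by
  rintro x ⟨⟨a, b, ha, hb, hab, rfl⟩, c, d, hc, hd, hcd, he⟩
  simp only at he
  obtain ⟨h1, -, h3, -⟩ := orient_dep h (x := a - c) (y := 0) (z := b) (w := -d) (by linarith) (by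
    have : (a - c) • p + (0 : ℝ) • q + b • r + -d • s = (a • p + b • r) - (c • p + d • s) := by
      module
    rw [this, he, sub_self])
  rw [h3, show a = 1 by linarith]; simp

lemma seg_right {p q r s : R3} (h : orient p q r s ≠ 0) : seg (p, r) ∩ seg (q, r) ⊆ {r} := by
  rintro x ⟨⟨a, b, ha, hb, hab, rfl⟩, c, d, hc, hd, hcd, he⟩
  simp only at he
  obtain ⟨h1, -, h3, -⟩ := orient_dep h (x := a) (y := -c) (z := b - d) (w := 0) (by linarith) (by
    have : a • p + -c • q + (b - d) • r + (0 : ℝ) • s = (a • p + b • r) - (c • q + d • r) := by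
      module
    rw [this, he, sub_self])
  rw [h1, show b = 1 by linarith]; simp

lemma orient_swap_left (p q r s : R3) : orient q p r s = - orient p q r s := by
  unfold orient; ring

lemma orient_swap_right (p q r s : R3) : orient p q s r = - orient p q r s := by
  unfold orient; ring

lemma orient_comm (p q r s : R3) : orient r s p q = orient p q r s := by
  unfold orient; ring

lemma Pos.swap {m : ℕ} {a b : ℕ → R3} (h : Pos m a b) : Pos m b a := by
  intro i j k l hij hj hkl hl
  rw [orient_comm]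
  exact h k l i j hkl hl hij hj

lemma Pos.ne_zero {m : ℕ} {a b : ℕ → R3} (h : Pos m a b) {i j k l : ℕ} (hi : i < m) (hj : j < m)
    (hk : k < m) (hl : l < m) (hij : i ≠ j) (hkl : k ≠ l) : orient (a i) (a j) (b k) (b l) ≠ 0 := by
  rcases lt_or_gt_of_ne hij with h1 | h1 <;> rcases lt_or_gt_of_ne hkl with h2 | h2
  · exact (h i j k l h1 hj h2 hl).ne'
  · rw [orient_swap_right, neg_ne_zero]; exact (h i j l k h1 hj h2 hk).ne'
  · rw [orient_swap_left, neg_ne_zero]; exact (h j i k l h1 hi h2 hl).ne'
  · rw [orient_swap_left, orient_swap_right, neg_neg]; exact (h j i l k h1 hi h2 hk).ne'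

/-! ### the code as a list -/

/-- the vertices of the alternating polygon as labels -/
def labels (c : List (ℕ × ℕ)) : List (ℕ ⊕ ℕ) := c.flatMap fun x => [Sum.inl x.1, Sum.inr x.2]

lemma map_labels (a b : ℕ → R3) (c : List (ℕ × ℕ)) : (labels c).map (Sum.elim a b) = zig a b c := by
  unfold labels zig
  rw [List.map_flatMap]
  rfl

@[simp] lemma zig_nil (a b : ℕ → R3) : zig a b [] = [] := rfl
@[simp] lemma zig_cons (a b : ℕ → R3) (x : ℕ × ℕ) (c : List (ℕ × ℕ)) :
    zig a b (x :: c) = a x.1 :: b x.2 :: zig a b c := rfl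

lemma length_zig (a b : ℕ → R3) (c : List (ℕ × ℕ)) : (zig a b c).length = 2 * c.length := by
  induction c with
  | nil => rfl
  | cons x c ih => simp only [zig_cons, List.length_cons, ih]; ring

lemma mem_zig {a b : ℕ → R3} {c : List (ℕ × ℕ)} {p : R3} :
    p ∈ zig a b c ↔ ∃ x ∈ c, p = a x.1 ∨ p = b x.2 := by
  unfold zig
  simp

/-- the edges of an open alternating path -/
lemma pathEdges_zig (a b : ℕ → R3) (q : ℕ × ℕ) : ∀ c : List (ℕ × ℕ), ∀ e ∈ pathEdges (zig a b c ++ [a q.1]),
    (∃ x ∈ c, e = (a x.1, b x.2)) ∨ ∃ x ∈ c, ∃ y ∈ c ++ [q], [x, y] <:+: c ++ [q] ∧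
      e = (b x.2, a y.1)
  | [], e, he => by simp at he
  | [x], e, he => by
    simp only [zig_cons, zig_nil, List.cons_append, List.nil_append, pathEdges_cons_cons,
      pathEdges_single, List.mem_cons, List.not_mem_nil, or_false] at he
    rcases he with rfl | rfl
    · exact Or.inl ⟨x, by simp, rfl⟩
    · exact Or.inr ⟨x, by simp, q, by simp, List.infix_rfl, rfl⟩
  | x :: y :: c, e, he => by
    simp only [zig_cons, List.cons_append, pathEdges_cons_cons, List.mem_cons] at he
    rcases he with rfl | rfl | he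
    · exact Or.inl ⟨x, by simp, rfl⟩
    · exact Or.inr ⟨x, by simp, y, by simp, ⟨[], c ++ [q], by simp⟩, rfl⟩
    · have := pathEdges_zig a b q (y :: c) e (by
        simp only [zig_cons, List.cons_append, pathEdges_cons_cons, List.mem_cons]
        exact he)
      rcases this with ⟨z, hz, rfl⟩ | ⟨z, hz, w, hw, hi, rfl⟩
      · exact Or.inl ⟨z, List.mem_cons_of_mem _ hz, rfl⟩
      · exact Or.inr ⟨z, List.mem_cons_of_mem _ hz, w, List.mem_cons_of_mem _ hw,
          hi.trans (List.suffix_cons x _).isInfix, rfl⟩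

/-- the edges of an alternating polygon -/
lemma edges_zig {a b : ℕ → R3} {c : List (ℕ × ℕ)} (hc : 2 ≤ c.length) (hn : c.Nodup)
    {e : R3 × R3} (he : e ∈ edges (zig a b c)) :
    (∃ x ∈ c, e = (a x.1, b x.2)) ∨ ∃ x ∈ c, ∃ y ∈ c, x ≠ y ∧ e = (b x.2, a y.1) := by
  match c, hc with
  | q :: z :: c, _ =>
    rw [zig_cons, edges_cons, ← zig_cons] at he
    rcases pathEdges_zig a b q _ e he with h | ⟨x, hx, y, hy, hi, rfl⟩
    · exact Or.inl h
    · refine Or.inr ⟨x, hx, y, ?_, ?_, rfl⟩
      · rcases List.mem_append.1 hy with h | h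
        · exact h
        · rw [List.mem_singleton] at h; rw [h]; simp
      · -- consecutive elements are different
        rintro rfl
        have h2 : ∀ (l : List (ℕ × ℕ)) (q x : ℕ × ℕ), l.Nodup → [x, x] <:+: l ++ [q] →
            ∃ l', l = l' ++ [q] ∧ x = q := by
          intro l q x hl hi
          obtain ⟨s, t, hst⟩ := hi
          rcases List.eq_nil_or_concat t with ht | ⟨t', w, ht⟩
          · subst ht
            have h3 : s ++ [x] ++ [x] = l ++ [q] := by rw [← hst]; simp
            have h4 := List.append_inj' h3 rfl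
            simp only [List.cons.injEq, and_true] at h4
            exact ⟨s, by rw [← h4.1, h4.2], h4.2⟩
          · exfalso
            rw [List.concat_eq_append] at ht
            subst ht
            have h3 : (s ++ [x, x] ++ t') ++ [w] = l ++ [q] := by rw [← hst]; simp
            have h4 := (List.append_inj' h3 rfl).1
            rw [← h4] at hl
            have h5 : [x, x].Nodup := (hl.of_append_left).of_append_right
            simp at h5
        obtain ⟨l', h3, h4⟩ := h2 _ q x hn hi
        rw [h3] at hn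
        -- `q` is the first and the last element
        have h5 : l' ≠ [] := by
          rintro rfl
          simp at h3
        obtain ⟨r, l'', rfl⟩ := List.exists_cons_of_ne_nil h5
        rw [List.cons_append, List.cons_eq_cons] at h3
        rw [← h3.1] at hn
        simp at hn

theorem pos_isKnot {m : ℕ} {a b : ℕ → R3} (h : Pos m a b) {c : List (ℕ × ℕ)}
    (hc : ValidCode m c) : IsKnot (zig a b c) := by
  obtain ⟨hc1, hc2, hc3, hc4⟩ := hc
  have hn : c.Nodup := hc2.of_map _
  have inj1 : ∀ x ∈ c, ∀ y ∈ c, x ≠ y → x.1 ≠ y.1 := fun x hx y hy hne h0 =>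
    hne (List.inj_on_of_nodup_map hc2 hx hy h0)
  have inj2 : ∀ x ∈ c, ∀ y ∈ c, x ≠ y → x.2 ≠ y.2 := fun x hx y hy hne h0 =>
    hne (List.inj_on_of_nodup_map hc3 hx hy h0)
  -- every element has a different partner
  have hother : ∀ x ∈ c, ∃ y ∈ c, y ≠ x := by
    intro x hx
    by_contra h0
    push Not at h0
    match c, hc1 with
    | q :: z :: c, _ =>
      have h1 := h0 q (by simp)
      have h2 := h0 z (by simp)
      rw [h1, h2] at hn
      simp at hn
  have nz : ∀ x ∈ c, ∀ y ∈ c, ∀ z ∈ c, ∀ w ∈ c, x ≠ y → z ≠ w →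
      orient (a x.1) (a y.1) (b z.2) (b w.2) ≠ 0 := fun x hx y hy z hz w hw h1 h2 =>
    h.ne_zero (hc4 x hx).1 (hc4 y hy).1 (hc4 z hz).2 (hc4 w hw).2 (inj1 x hx y hy h1)
      (inj2 z hz w hw h2)
  have ne_of : ∀ {p q r s : R3}, orient p q r s ≠ 0 → p ≠ q ∧ p ≠ r ∧ p ≠ s ∧ r ≠ s := by
    intro p q r s h0
    refine ⟨?_, ?_, ?_, ?_⟩ <;> rintro rfl <;> apply h0 <;> unfold orient <;> ring
  have haa : ∀ x ∈ c, ∀ y ∈ c, x ≠ y → a x.1 ≠ a y.1 := fun x hx y hy hne =>
    (ne_of (nz x hx y hy x hx y hy hne hne)).1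
  have hbb : ∀ x ∈ c, ∀ y ∈ c, x ≠ y → b x.2 ≠ b y.2 := fun x hx y hy hne =>
    (ne_of (nz x hx y hy x hx y hy hne hne)).2.2.2
  have hab : ∀ x ∈ c, ∀ y ∈ c, a x.1 ≠ b y.2 := by
    intro x hx y hy
    obtain ⟨x', hx', hxx⟩ := hother x hx
    obtain ⟨y', hy', hyy⟩ := hother y hy
    exact (ne_of (nz x hx x' hx' y hy y' hy' hxx.symm hyy.symm)).2.1
  have hnodup : (zig a b c).Nodup := by
    clear hc1 hc4 h nz hother inj1 inj2
    induction c with
    | nil => simp
    | cons x c ih =>
      rw [zig_cons]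
      have ih' := ih (List.nodup_cons.1 (by simpa using hc2)).2 (List.nodup_cons.1 (by simpa using hc3)).2
        (List.nodup_cons.1 hn).2 (fun x hx y hy => haa x (by simp [hx]) y (by simp [hy]))
        (fun x hx y hy => hbb x (by simp [hx]) y (by simp [hy]))
        (fun x hx y hy => hab x (by simp [hx]) y (by simp [hy]))
      have hx : x ∉ c := (List.nodup_cons.1 hn).1
      rw [List.nodup_cons, List.nodup_cons]
      refine ⟨?_, ?_, ih'⟩
      · rw [List.mem_cons, not_or]
        refine ⟨hab x (by simp) x (by simp), ?_⟩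
        rw [mem_zig]
        rintro ⟨y, hy, h1 | h1⟩
        · exact haa x (by simp) y (by simp [hy]) (by rintro rfl; exact hx hy) h1
        · exact hab x (by simp) y (by simp [hy]) h1
      · rw [mem_zig]
        rintro ⟨y, hy, h1 | h1⟩
        · exact hab y (by simp [hy]) x (by simp) h1.symm
        · exact hbb x (by simp) y (by simp [hy]) (by rintro rfl; exact hx hy) h1
  rw [isKnot_iff]
  refine ⟨by rw [length_zig]; omega, hnodup, ?_⟩
  intro e he f hf hne
  have hfst : e.1 ≠ f.1 := fun h0 => hne (edges_eq_of_fst hnodup he hf h0)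
  have hsnd : e.2 ≠ f.2 := fun h0 => hne (edges_eq_of_snd hnodup he hf h0)
  -- the mixed case
  have mixed : ∀ x ∈ c, ∀ y ∈ c, ∀ z ∈ c, y ≠ z →
      seg (a x.1, b x.2) ∩ seg (b y.2, a z.1) ⊆ ends (a x.1, b x.2) ∩ ends (b y.2, a z.1) := by
    intro x hx y hy z hz hyz
    rw [← seg_swap (b y.2, a z.1), ← ends_swap (b y.2, a z.1)]
    by_cases h1 : x = y
    · subst h1
      intro p hp
      have := seg_right (nz x hx z hz x hx z hz hyz hyz) hp
      rw [Set.mem_singleton_iff] at this
      subst this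
      exact ⟨Or.inr rfl, Or.inr rfl⟩
    by_cases h2 : x = z
    · subst h2
      intro p hp
      have := seg_left (nz x hx y hy x hx y hy h1 h1) hp
      rw [Set.mem_singleton_iff] at this
      subst this
      exact ⟨Or.inl rfl, Or.inl rfl⟩
    · have := seg_disj (nz x hx z hz x hx y hy h2 h1)
      rw [show (b y.2, a z.1).swap = (a z.1, b y.2) from rfl, this]
      exact Set.empty_subset _
  rcases edges_zig hc1 hn he with ⟨x, hx, rfl⟩ | ⟨x, hx, y, hy, hxy, rfl⟩ <;>
    rcases edges_zig hc1 hn hf with ⟨x', hx', rfl⟩ | ⟨x', hx', y', hy', hxy', rfl⟩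
  · have hxx : x ≠ x' := by rintro rfl; exact hne rfl
    rw [seg_disj (nz x hx x' hx' x hx x' hx' hxx hxx)]
    exact Set.empty_subset _
  · exact mixed x hx x' hx' y' hy' hxy'
  · rw [Set.inter_comm, Set.inter_comm (ends _)]
    exact mixed x' hx' x hx y hy hxy
  · have hxx : x ≠ x' := by rintro rfl; exact hfst rfl
    have hyy : y ≠ y' := by rintro rfl; exact hsnd rfl
    have := seg_disj (nz y hy y' hy' x hx x' hx' hyy hxx)
    rw [← seg_swap, ← seg_swap (b x'.2, a y'.1)]
    rw [show (b x.2, a y.1).swap = (a y.1, b x.2) from rfl,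
      show (b x'.2, a y'.1).swap = (a y'.1, b x'.2) from rfl, this]
    exact Set.empty_subset _

end Pool.Agent.LinKnot
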