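import Pool.Agent.Lib.MP_188a32_co_helper88.Local

/-!
# Task C: perturbation and continuity of polygonal knots
-/

set_option autoImplicit false

namespace Pool.Agent.LinKnot

open scoped Classical Topology

lemma edges_ofFn {m : ℕ} (p : Fin (m + 1) → R3) :
    edges (List.ofFn p) = List.ofFn (fun i => (p i, p (i + 1))) := by
  unfold edges
  apply List.ext_getElem
  · simp
  · intro k h1 h2
    simp only [List.getElem_zip, List.getElem_ofFn, List.getElem_rotate, List.length_ofFn]
    simp only [List.length_ofFn] at h2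
    congr 2
    ext
    rw [Fin.val_add]
    simp [Nat.add_mod]

lemma ofFn_shift {m : ℕ} (p : Fin (m + 1) → R3) (k : Fin (m + 1)) :
    List.ofFn (fun j => p (j + k)) = (List.ofFn p).rotate k := by
  apply List.ext_getElem
  · simp
  · intro j h1 h2
    simp only [List.getElem_ofFn, List.getElem_rotate, List.length_ofFn]
    congr 1

/-- A quantitative form of `IsKnot`. -/
structure Robust {m : ℕ} (η : ℝ) (p : Fin (m + 3) → R3) : Prop where
  fan : ∀ i, Fan η (p (i + 1)) (p i) (p (i + 2))
  far : ∀ i j, j ≠ i → j ≠ i + 1 → i ≠ j + 1 → ∀ x ∈ seg (p i, p (i + 1)),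
    ∀ y ∈ seg (p j, p (j + 1)), η ≤ ‖x - y‖

lemma Fan.mono {η η' : ℝ} {v u w : R3} (h : Fan η v u w) (hη : η' ≤ η) : Fan η' v u w := by
  intro s r hs hr
  exact (mul_le_mul_of_nonneg_right hη (hs.trans (le_max_left _ _))).trans (h s r hs hr)

lemma exists_fan {v u w : R3}
    (h : ∀ s r : ℝ, 0 ≤ s → 0 ≤ r → s • (u - v) = r • (w - v) → s = 0 ∧ r = 0) :
    ∃ η : ℝ, 0 < η ∧ Fan η v u w := by
  set K : Set (ℝ × ℝ) := Metric.sphere (0 : ℝ × ℝ) 1 ∩ {x | 0 ≤ x.1 ∧ 0 ≤ x.2} with hK
  have hKc : IsCompact K := by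
    apply (isCompact_sphere _ _).inter_right
    exact (isClosed_le continuous_const continuous_fst).inter
      (isClosed_le continuous_const continuous_snd)
  have hKn : K.Nonempty := ⟨(1, 0), by simp [hK, Prod.norm_def]⟩
  obtain ⟨x, hx, hmin⟩ := hKc.exists_isMinOn (f := fun x : ℝ × ℝ => ‖x.1 • (u - v) - x.2 • (w - v)‖)
    hKn (by fun_prop)
  refine ⟨‖x.1 • (u - v) - x.2 • (w - v)‖, ?_, ?_⟩
  · rw [norm_pos_iff]
    intro h0
    obtain ⟨h1, h2⟩ := h x.1 x.2 hx.2.1 hx.2.2 (sub_eq_zero.1 h0)
    have h3 : x = 0 := Prod.ext h1 h2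
    have := hx.1
    rw [h3] at this
    simp at this
  · intro s r hs hr
    set M := max s r with hM
    have hM0 : 0 ≤ M := hs.trans (le_max_left _ _)
    rcases hM0.lt_or_eq with hM1 | hM1
    · have hmem : (s / M, r / M) ∈ K := by
        refine ⟨?_, by positivity, by positivity⟩
        rw [mem_sphere_zero_iff_norm, Prod.norm_def]
        simp only [Real.norm_eq_abs]
        rw [abs_of_nonneg (by positivity : (0:ℝ) ≤ s / M),
          abs_of_nonneg (by positivity : (0:ℝ) ≤ r / M), max_div_div_right hM0, ← hM,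
          div_self hM1.ne']
      have h1 := hmin hmem
      simp only [Set.mem_ofPred_eq] at h1
      have h2 : s • (u - v) - r • (w - v) = M • ((s / M) • (u - v) - (r / M) • (w - v)) := by
        have e1 : s = M * (s / M) := by field_simp
        have e2 : r = M * (r / M) := by field_simp
        nth_rewrite 1 [e1]
        nth_rewrite 1 [e2]
        module
      rw [h2, norm_smul, Real.norm_of_nonneg hM0, mul_comm]
      exact mul_le_mul_of_nonneg_left h1 hM0
    · rw [← hM1, mul_zero]; exact norm_nonneg _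

lemma isCompact_seg (e : R3 × R3) : IsCompact (seg e) := by
  have h : IsCompact (convexHull ℝ ({e.1, e.2} : Set R3)) :=
    (Set.toFinite {e.1, e.2}).isCompact_convexHull ℝ
  rw [convexHull_pair] at h
  exact h

lemma exists_far {e f : R3 × R3} (h : seg e ∩ seg f = ∅) :
    ∃ η : ℝ, 0 < η ∧ ∀ x ∈ seg e, ∀ y ∈ seg f, η ≤ ‖x - y‖ := by
  obtain ⟨r, hr, h'⟩ := Metric.exists_pos_forall_lt_edist (isCompact_seg e)
    (isCompact_seg f).isClosed (Set.disjoint_iff_inter_eq_empty.2 h)
  refine ⟨r, by exact_mod_cast hr, fun x hx y hy => ?_⟩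
  have h1 := h' x hx y hy
  rw [edist_dist, dist_eq_norm, ← ENNReal.ofReal_coe_nnreal] at h1
  exact (ENNReal.ofReal_lt_ofReal_iff'.1 h1).1.le

/-- A knot is robust for some positive constant. -/
lemma exists_robust {m : ℕ} {p : Fin (m + 3) → R3} (h : IsKnot (List.ofFn p)) :
    ∃ η : ℝ, 0 < η ∧ Robust η p := by
  have hinj : Function.Injective p := List.nodup_ofFn.1 h.nodup
  have hmem : ∀ i, (p i, p (i + 1)) ∈ edges (List.ofFn p) := by
    intro i; rw [edges_ofFn, List.mem_ofFn]; exact ⟨i, rfl⟩
  have e1 : ∀ i : Fin (m + 3), i ≠ i + 1 := by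
    intro i h0
    have : (1 : Fin (m + 3)) = 0 := by simpa using h0.symm
    simp at this
  have e2 : ∀ i : Fin (m + 3), i ≠ i + 2 := by
    intro i h0
    have h2 : (2 : Fin (m + 3)) = 0 := by simpa using h0.symm
    have := congrArg Fin.val h2
    have v2 : (2 : Fin (m + 3)).val = 2 := rfl
    have v0 : (0 : Fin (m + 3)).val = 0 := rfl
    omega
  have e3 : ∀ i : Fin (m + 3), i + 1 ≠ i + 2 := by
    intro i h0
    have h2 : (1 : Fin (m + 3)) = 2 := by simpa using h0
    have := congrArg Fin.val h2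
    have v2 : (2 : Fin (m + 3)).val = 2 := rfl
    have v1 : (1 : Fin (m + 3)).val = 1 := rfl
    omega
  have hfan : ∀ i, ∃ η : ℝ, 0 < η ∧ Fan η (p (i + 1)) (p i) (p (i + 2)) := by
    intro i
    apply exists_fan
    -- intersection of the two edges at `p (i + 1)`
    have hgood := h.good (hmem i) (hmem (i + 1)) (by
      intro h0
      exact e1 i (hinj (Prod.ext_iff.1 h0).1))
    have hcap : ∀ x, x ∈ seg (p i, p (i + 1)) → x ∈ seg (p (i + 1), p (i + 2)) → x = p (i + 1) := by
      intro x hx hx'
      have h12 : i + 1 + 1 = i + 2 := by rw [add_assoc]; rfl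
      rw [h12] at hgood
      obtain ⟨h3, h4⟩ := hgood ⟨hx, hx'⟩
      rcases h3 with h3 | h3
      · rcases h4 with h4 | h4
        · exact h4
        · exfalso
          exact e2 i (hinj (h3.symm.trans h4))
      · exact h3
    have step : ∀ s r : ℝ, 0 ≤ s → s ≤ 1 → 0 ≤ r → r ≤ 1 →
        s • (p i - p (i + 1)) = r • (p (i + 2) - p (i + 1)) → s = 0 ∧ r = 0 := by
      intro s r hs hs1 hr hr1 he
      have hx := hcap (p (i + 1) + s • (p i - p (i + 1)))
        ⟨s, 1 - s, hs, by linarith, by ring, by module⟩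
        ⟨1 - r, r, by linarith, hr, by ring, by rw [he]; module⟩
      have h1 : s • (p i - p (i + 1)) = 0 := by simpa using hx
      have h2 : r • (p (i + 2) - p (i + 1)) = 0 := by rw [← he]; exact h1
      refine ⟨?_, ?_⟩
      · rcases smul_eq_zero.1 h1 with h3 | h3
        · exact h3
        · exact absurd (hinj (sub_eq_zero.1 h3)) (e1 i)
      · rcases smul_eq_zero.1 h2 with h3 | h3
        · exact h3
        · exact absurd (hinj (sub_eq_zero.1 h3)) (e3 i).symm
    intro s r hs hr he
    have hM : 0 < max s r + 1 := by positivity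
    have := step (s / (max s r + 1)) (r / (max s r + 1)) (by positivity)
      (by rw [div_le_one hM]; linarith [le_max_left s r]) (by positivity)
      (by rw [div_le_one hM]; linarith [le_max_right s r]) (by
        rw [div_eq_inv_mul, div_eq_inv_mul, ← smul_smul, ← smul_smul, he])
    constructor
    · have h5 := this.1
      rcases div_eq_zero_iff.1 h5 with h6 | h6
      · exact h6
      · exact absurd h6 hM.ne'
    · have h5 := this.2
      rcases div_eq_zero_iff.1 h5 with h6 | h6
      · exact h6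
      · exact absurd h6 hM.ne'
  have hfar : ∀ ij : Fin (m + 3) × Fin (m + 3), ∃ η : ℝ, 0 < η ∧
      (ij.2 ≠ ij.1 → ij.2 ≠ ij.1 + 1 → ij.1 ≠ ij.2 + 1 → ∀ x ∈ seg (p ij.1, p (ij.1 + 1)),
        ∀ y ∈ seg (p ij.2, p (ij.2 + 1)), η ≤ ‖x - y‖) := by
    rintro ⟨i, j⟩
    by_cases hc : j ≠ i ∧ j ≠ i + 1 ∧ i ≠ j + 1
    · obtain ⟨h1, h2, h3⟩ := hc
      have hgood := h.good (hmem i) (hmem j) (by
        intro h0
        exact h1 (hinj (Prod.ext_iff.1 h0).1).symm)
      have hemp : seg (p i, p (i + 1)) ∩ seg (p j, p (j + 1)) = ∅ := by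
        rw [Set.eq_empty_iff_forall_notMem]
        intro x hx
        obtain ⟨h4, h5⟩ := hgood hx
        rcases h4 with h4 | h4 <;> rcases h5 with h5 | h5
        · exact h1 (hinj (h4.symm.trans h5)).symm
        · exact h3 (hinj (h4.symm.trans h5))
        · exact h2 (hinj (h4.symm.trans h5)).symm
        · exact h1 (add_right_cancel (hinj (h4.symm.trans h5))).symm
      obtain ⟨η, hη, hη'⟩ := exists_far hemp
      exact ⟨η, hη, fun _ _ _ => hη'⟩
    · refine ⟨1, one_pos, fun h1 h2 h3 => absurd ⟨h1, h2, h3⟩ hc⟩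
  choose η₁ hη₁ hfan using hfan
  choose η₂ hη₂ hfar using hfar
  obtain ⟨a, ha⟩ := Finite.exists_min η₁
  obtain ⟨b, hb⟩ := Finite.exists_min η₂
  refine ⟨min (η₁ a) (η₂ b), lt_min (hη₁ a) (hη₂ b), ⟨fun i => (hfan i).mono
    ((min_le_left _ _).trans (ha i)), fun i j h1 h2 h3 x hx y hy =>
      ((min_le_right _ _).trans (hb (i, j))).trans (hfar (i, j) h1 h2 h3 x hx y hy)⟩⟩

lemma Robust.perturb {m : ℕ} {η δ : ℝ} {p q : Fin (m + 3) → R3} (h : Robust η p)
    (hδ : ∀ i, ‖q i - p i‖ ≤ δ) : Robust (η - 4 * δ) q := by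
  have hδ0 : 0 ≤ δ := (norm_nonneg _).trans (hδ 0)
  constructor
  · intro i s r hs hr
    have h1 := h.fan i s r hs hr
    have h2 : ‖(s • (p i - p (i + 1)) - r • (p (i + 2) - p (i + 1))) -
        (s • (q i - q (i + 1)) - r • (q (i + 2) - q (i + 1)))‖ ≤ 4 * δ * max s r := by
      have e1 : (s • (p i - p (i + 1)) - r • (p (i + 2) - p (i + 1))) -
        (s • (q i - q (i + 1)) - r • (q (i + 2) - q (i + 1))) =
        (-(s • (q i - p i)) + s • (q (i + 1) - p (i + 1))) +
        (r • (q (i + 2) - p (i + 2)) + -(r • (q (i + 1) - p (i + 1)))) := by module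
      rw [e1]
      have b1 : ∀ j, ‖s • (q j - p j)‖ ≤ max s r * δ := by
        intro j
        rw [norm_smul, Real.norm_of_nonneg hs]
        exact mul_le_mul (le_max_left _ _) (hδ j) (norm_nonneg _) (hs.trans (le_max_left _ _))
      have b2 : ∀ j, ‖r • (q j - p j)‖ ≤ max s r * δ := by
        intro j
        rw [norm_smul, Real.norm_of_nonneg hr]
        exact mul_le_mul (le_max_right _ _) (hδ j) (norm_nonneg _) (hs.trans (le_max_left _ _))
      refine (norm_add_le _ _).trans ?_
      have c1 := norm_add_le (-(s • (q i - p i))) (s • (q (i + 1) - p (i + 1)))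
      have c2 := norm_add_le (r • (q (i + 2) - p (i + 2))) (-(r • (q (i + 1) - p (i + 1))))
      rw [norm_neg] at c1 c2
      have := b1 i; have := b1 (i + 1); have := b2 (i + 2); have := b2 (i + 1)
      linarith
    have h3 := norm_sub_norm_le (s • (p i - p (i + 1)) - r • (p (i + 2) - p (i + 1)))
      (s • (q i - q (i + 1)) - r • (q (i + 2) - q (i + 1)))
    have h4 : (η - 4 * δ) * max s r = η * max s r - 4 * δ * max s r := by ring
    rw [h4]
    linarith
  · rintro i j h1 h2 h3 x ⟨a, b, ha, hb, hab, rfl⟩ y ⟨c, d, hc, hd, hcd, rfl⟩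
    have h4 := h.far i j h1 h2 h3 (a • p i + b • p (i + 1)) ⟨a, b, ha, hb, hab, rfl⟩
      (c • p j + d • p (j + 1)) ⟨c, d, hc, hd, hcd, rfl⟩
    simp only
    have h5 : ∀ (a b : ℝ) (i j : Fin (m + 3)), 0 ≤ a → 0 ≤ b → a + b = 1 →
        ‖(a • p i + b • p j) - (a • q i + b • q j)‖ ≤ δ := by
      intro a b i j ha hb hab
      have e1 : (a • p i + b • p j) - (a • q i + b • q j) =
        -(a • (q i - p i)) + -(b • (q j - p j)) := by module
      rw [e1]
      refine (norm_add_le _ _).trans ?_
      rw [norm_neg, norm_neg, norm_smul, norm_smul, Real.norm_of_nonneg ha,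
        Real.norm_of_nonneg hb]
      have c1 := mul_le_mul_of_nonneg_left (hδ i) ha
      have c2 := mul_le_mul_of_nonneg_left (hδ j) hb
      have c3 : a * δ + b * δ = δ := by rw [← add_mul, hab, one_mul]
      linarith
    have h6 := h5 a b i (i + 1) ha hb hab
    have h7 := h5 c d j (j + 1) hc hd hcd
    have e2 : (a • p i + b • p (i + 1)) - (c • p j + d • p (j + 1)) =
      ((a • q i + b • q (i + 1)) - (c • q j + d • q (j + 1))) +
      ((a • p i + b • p (i + 1)) - (a • q i + b • q (i + 1))) +
      -((c • p j + d • p (j + 1)) - (c • q j + d • q (j + 1))) := by module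
    have h8 := norm_add₃_le (a := (a • q i + b • q (i + 1)) - (c • q j + d • q (j + 1)))
      (b := (a • p i + b • p (i + 1)) - (a • q i + b • q (i + 1)))
      (c := -((c • p j + d • p (j + 1)) - (c • q j + d • q (j + 1))))
    rw [← e2, norm_neg] at h8
    linarith

lemma Robust.isKnot {m : ℕ} {η : ℝ} (hη : 0 < η) {p : Fin (m + 3) → R3} (h : Robust η p) :
    IsKnot (List.ofFn p) := by
  have hadj : ∀ i, p i ≠ p (i + 1) := by
    intro i h0
    have := (h.fan i).left
    rw [h0, sub_self, norm_zero] at this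
    linarith
  have hinj : Function.Injective p := by
    intro i j hij
    by_contra hne
    by_cases h1 : j = i + 1
    · subst h1; exact hadj i hij
    by_cases h2 : i = j + 1
    · subst h2; exact hadj j hij.symm
    have := h.far i j (Ne.symm hne) h1 h2 _ (left_mem_seg _) _ (left_mem_seg _)
    simp only [hij, sub_self, norm_zero] at this
    linarith
  have hcap : ∀ i x, x ∈ seg (p i, p (i + 1)) → x ∈ seg (p (i + 1), p (i + 1 + 1)) →
      x = p (i + 1) := by
    rintro i x ⟨a, b, ha, hb, hab, rfl⟩ ⟨c, d, hc, hd, hcd, he⟩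
    simp only at he ⊢
    have h12 : i + 1 + 1 = i + 2 := by rw [add_assoc]; rfl
    rw [h12] at he
    have h1 : a • (p i - p (i + 1)) = d • (p (i + 2) - p (i + 1)) := by
      have e1 : a • (p i - p (i + 1)) = (a • p i + b • p (i + 1)) - p (i + 1) := by
        rw [show b = 1 - a by linarith]; module
      rw [e1, ← he, show c = 1 - d by linarith]; module
    obtain ⟨h2, h3⟩ := (h.fan i).zero hη ha hd h1
    rw [h2, show b = 1 by linarith]; simp
  rw [isKnot_iff]
  refine ⟨by simp, List.nodup_ofFn.2 hinj, ?_⟩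
  intro e he f hf hne
  rw [edges_ofFn, List.mem_ofFn] at he hf
  obtain ⟨i, rfl⟩ := he
  obtain ⟨j, rfl⟩ := hf
  have hij : j ≠ i := by rintro rfl; exact hne rfl
  rintro x ⟨hx, hx'⟩
  by_cases h1 : j = i + 1
  · subst h1
    rw [hcap i x hx hx']
    exact ⟨Or.inr rfl, Or.inl rfl⟩
  by_cases h2 : i = j + 1
  · subst h2
    rw [hcap j x hx' hx]
    exact ⟨Or.inl rfl, Or.inr rfl⟩
  have := h.far i j hij h1 h2 x hx x hx'
  rw [sub_self, norm_zero] at this
  linarith

lemma tri_fan {η : ℝ} {u v z v' : R3} (hη : 0 < η) (h : Fan η u z v) (hd : ‖v' - v‖ < η) :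
    convexHull ℝ {u, v, v'} ∩ seg (z, u) ⊆ {u} := by
  rintro p ⟨hp, c, d, hc, hd', hcd, hp'⟩
  obtain ⟨x, y, w, hx, hy, hw, hxyw, rfl⟩ := mem_tri hp
  simp only at hp'
  rw [Set.mem_singleton_iff, ← hp']
  -- `c (z - u) - (y + w) (v - u) = w (v' - v)`
  have e1 : c • (z - u) - (y + w) • (v - u) = w • (v' - v) := by
    have h1 : c • (z - u) = (c • z + d • u) - u := by rw [show d = 1 - c by linarith]; module
    rw [h1, hp', show x = 1 - y - w by linarith]; module
  have h2 := h c (y + w) hc (by positivity)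
  rw [e1, norm_smul, Real.norm_of_nonneg hw] at h2
  have hc0 : c = 0 := by
    rcases hw.lt_or_eq with hw0 | hw0
    · exfalso
      have h3 : η * (y + w) ≤ η * max c (y + w) := mul_le_mul_of_nonneg_left (le_max_right _ _) hη.le
      have h4 : w * ‖v' - v‖ < w * η := mul_lt_mul_of_pos_left hd hw0
      nlinarith [mul_nonneg hη.le hy]
    · have h3 : η * c ≤ η * max c (y + w) := mul_le_mul_of_nonneg_left (le_max_left _ _) hη.le
      rw [← hw0, zero_mul] at h2
      have h4 : η * c ≤ 0 := by rw [← hw0] at h3; exact h3.trans h2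
      have h5 : c ≤ 0 := by
        by_contra h6
        push Not at h6
        have := mul_pos hη h6
        linarith
      exact le_antisymm h5 hc
  rw [hc0, show d = 1 by linarith]; simp

lemma tri_far {η : ℝ} {u v v' : R3} {e : R3 × R3} (h : ∀ x ∈ seg (u, v), ∀ y ∈ seg e, η ≤ ‖x - y‖)
    (hd : ‖v' - v‖ < η) : convexHull ℝ {u, v, v'} ∩ seg e ⊆ {u} := by
  rintro p ⟨hp, hp'⟩
  exfalso
  obtain ⟨x, y, w, hx, hy, hw, hxyw, rfl⟩ := mem_tri hp
  have h1 := h (x • u + (y + w) • v) ⟨x, y + w, hx, by positivity, by linarith, rfl⟩ _ hp'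
  have e1 : (x • u + (y + w) • v) - (x • u + y • v + w • v') = -(w • (v' - v)) := by module
  rw [e1, norm_neg, norm_smul, Real.norm_of_nonneg hw] at h1
  have h2 : w * ‖v' - v‖ ≤ 1 * ‖v' - v‖ := mul_le_mul_of_nonneg_right (by linarith) (norm_nonneg _)
  linarith

/-- the vertex move at the index `1` -/
lemma Robust.move_one {m : ℕ} {η : ℝ} (hη : 0 < η) {p : Fin (m + 3) → R3} (h : Robust η p)
    {v' : R3} (hd : ‖v' - p 1‖ < η) :
    Isotopic (List.ofFn p) (List.ofFn (Function.update p 1 v')) := by
  have form : ∀ p : Fin (m + 3) → R3, List.ofFn p =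
      p 0 :: p 1 :: p 2 :: List.ofFn (fun i : Fin m => p i.succ.succ.succ) := by
    intro p
    rw [List.ofFn_succ, List.ofFn_succ, List.ofFn_succ]
    rfl
  have hk := h.isKnot hη
  have hpath : ∀ e ∈ pathEdges (p 2 :: List.ofFn (fun i : Fin m => p i.succ.succ.succ) ++ [p 0]),
      ∃ j : Fin (m + 3), j ≠ 0 ∧ j ≠ 1 ∧ e = (p j, p (j + 1)) := by
    intro e he
    have h1 : edges (List.ofFn p) = (p 0, p 1) :: (p 1, p 2) ::
        pathEdges (p 2 :: List.ofFn (fun i : Fin m => p i.succ.succ.succ) ++ [p 0]) := by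
      rw [form p, edges_cons_cons]; simp
    rw [edges_ofFn, List.ofFn_succ, List.ofFn_succ] at h1
    rw [List.cons_eq_cons, List.cons_eq_cons] at h1
    rw [← h1.2.2, List.mem_ofFn] at he
    obtain ⟨i, rfl⟩ := he
    refine ⟨i.succ.succ, Fin.succ_ne_zero _, ?_, rfl⟩
    intro h0
    have := congrArg Fin.val h0
    simp at this
  have v0 : (0 : Fin (m + 3)).val = 0 := rfl
  have v1 : (1 : Fin (m + 3)).val = 1 := rfl
  have v2 : (2 : Fin (m + 3)).val = 2 := rfl
  have n01 : (0 : Fin (m + 3)) ≠ 1 := by intro h0; have := congrArg Fin.val h0; omega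
  have n02 : (0 : Fin (m + 3)) ≠ 2 := by intro h0; have := congrArg Fin.val h0; omega
  have n12 : (1 : Fin (m + 3)) ≠ 2 := by intro h0; have := congrArg Fin.val h0; omega
  have h11 : (1 : Fin (m + 3)) + 1 = 2 := rfl
  have h01 : (0 : Fin (m + 3)) + 1 = 1 := by simp
  rw [form p] at hk
  have hmove := vertex_move (v' := v') hη hk ?_ ?_ (by
    have := h.fan 0
    simpa using this) hd
  · rw [form p, form (Function.update p 1 v')]
    have e1 : (fun i : Fin m => Function.update p 1 v' i.succ.succ.succ) =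
        fun i : Fin m => p i.succ.succ.succ := by
      funext i
      apply Function.update_of_ne
      intro h0
      have := congrArg Fin.val h0
      simp at this
    rw [e1, Function.update_of_ne n01, Function.update_self, Function.update_of_ne n12.symm]
    exact hmove.2
  · intro e he
    obtain ⟨j, hj0, hj1, rfl⟩ := hpath e he
    by_cases hj : j + 1 = 0
    · rw [hj]
      have h2 := h.fan j
      have h3 : j + 2 = 1 := by
        have : j + 2 = (j + 1) + 1 := by rw [add_assoc]; rfl
        rw [this, hj, zero_add]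
      rw [hj, h3] at h2
      exact tri_fan hη h2 hd
    · have h2 := h.far 0 j hj0 (by rwa [h01]) (Ne.symm hj)
      rw [h01] at h2
      exact tri_far h2 hd
  · intro e he
    obtain ⟨j, hj0, hj1, rfl⟩ := hpath e he
    by_cases hj : j = 2
    · subst hj
      have h2 := h.fan 1
      have h3 : (1 : Fin (m + 3)) + 2 = 2 + 1 := add_comm _ _
      rw [h11, h3] at h2
      have := tri_fan hη h2.symm hd
      rw [← seg_swap (p 2, p (2 + 1))]
      exact this
    · have h2 := h.far 1 j hj1 (by rwa [h11]) (by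
        intro h0
        have : j + 1 = 0 + 1 := by rw [← h0]; simp
        exact hj0 (add_right_cancel this))
      rw [h11] at h2
      refine tri_far ?_ hd
      intro x hx y hy
      exact h2 x (by rw [← seg_swap]; exact hx) y hy

lemma Robust.shift {m : ℕ} {η : ℝ} {p : Fin (m + 3) → R3} (h : Robust η p) (k : Fin (m + 3)) :
    Robust η (fun j => p (j + k)) := by
  constructor
  · intro i
    have := h.fan (i + k)
    have e1 : i + 1 + k = i + k + 1 := add_right_comm _ _ _
    have e2 : i + 2 + k = i + k + 2 := add_right_comm _ _ _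
    simp only [e1, e2]
    exact this
  · intro i j h1 h2 h3
    have e1 : i + 1 + k = i + k + 1 := add_right_comm _ _ _
    have e2 : j + 1 + k = j + k + 1 := add_right_comm _ _ _
    have := h.far (i + k) (j + k) (fun h0 => h1 (add_right_cancel h0))
      (fun h0 => h2 (by rw [← e1] at h0; exact add_right_cancel h0))
      (fun h0 => h3 (by rw [← e2] at h0; exact add_right_cancel h0))
    simp only [e1, e2]
    exact this

lemma Robust.move {m : ℕ} {η : ℝ} (hη : 0 < η) {p : Fin (m + 3) → R3} (h : Robust η p)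
    (i : Fin (m + 3)) {v' : R3} (hd : ‖v' - p i‖ < η) :
    Isotopic (List.ofFn p) (List.ofFn (Function.update p i v')) := by
  have h1 : (1 : Fin (m + 3)) + (i - 1) = i := by
    have := sub_add_cancel i 1
    exact (add_comm _ _).trans this
  have h2 := (h.shift (i - 1)).move_one hη (v' := v') (by simpa only [h1] using hd)
  have h3 : Function.update (fun j => p (j + (i - 1))) 1 v' =
      fun j => Function.update p i v' (j + (i - 1)) := by
    funext j
    by_cases hj : j = 1
    · subst hj; simp only [h1, Function.update_self]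
    · rw [Function.update_of_ne hj, Function.update_of_ne]
      intro h0
      exact hj (add_right_cancel (b := i - 1) (h0.trans h1.symm))
  rw [h3, ofFn_shift, ofFn_shift] at h2
  exact ((isotopic_rotate _ _).trans h2).trans (isotopic_rotate _ _).symm

theorem eventually_isotopic {n : ℕ} (p : Fin n → R3) (h : IsKnot (List.ofFn p)) :
    ∀ᶠ q in 𝓝 p, IsKnot (List.ofFn q) ∧ Isotopic (List.ofFn p) (List.ofFn q) := by
  obtain ⟨m, rfl⟩ : ∃ m, n = m + 3 := ⟨n - 3, by have := h.length; simp at this; omega⟩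
  obtain ⟨η, hη, hr⟩ := exists_robust h
  have hev : ∀ᶠ q in 𝓝 p, ∀ i, ‖q i - p i‖ < η / 8 := by
    have := Metric.ball_mem_nhds p (show 0 < η / 8 by positivity)
    filter_upwards [this] with q hq i
    rw [Metric.mem_ball, dist_eq_norm] at hq
    exact lt_of_le_of_lt (norm_le_pi_norm (q - p) i) hq
  filter_upwards [hev] with q hq
  refine ⟨(hr.perturb (fun i => (hq i).le)).isKnot (by linarith), ?_⟩
  -- chain of vertex moves
  set H : ℕ → Fin (m + 3) → R3 := fun k i => if i.val < k then q i else p i with hH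
  have hrob : ∀ k, Robust (η / 2) (H k) := by
    intro k
    have : Robust (η - 4 * (η / 8)) (H k) := by
      apply hr.perturb
      intro i
      simp only [hH]
      split_ifs
      · exact (hq i).le
      · simp; positivity
    convert this using 1
    ring
  have hstep : ∀ k, k ≤ m + 3 → Isotopic (List.ofFn p) (List.ofFn (H k)) := by
    intro k
    induction k with
    | zero =>
      intro _
      have : H 0 = p := by funext i; simp [hH]
      rw [this]; exact Isotopic.refl _
    | succ k ih =>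
      intro hk
      refine (ih (by omega)).trans ?_
      have h1 : H (k + 1) = Function.update (H k) ⟨k, by omega⟩ (q ⟨k, by omega⟩) := by
        funext i
        by_cases hi : i = ⟨k, by omega⟩
        · subst hi; simp [hH]
        · rw [Function.update_of_ne hi]
          have hi' : i.val ≠ k := fun h0 => hi (Fin.ext h0)
          simp only [hH]
          by_cases h2 : i.val < k
          · rw [if_pos h2, if_pos (by omega)]
          · rw [if_neg h2, if_neg (by omega)]
      rw [h1]
      apply (hrob k).move (by positivity)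
      have h2 : H k ⟨k, by omega⟩ = p ⟨k, by omega⟩ := by simp [hH]
      rw [h2]
      have := hq ⟨k, by omega⟩
      linarith
  have := hstep (m + 3) le_rfl
  have h2 : H (m + 3) = q := by
    funext i; simp [hH, i.isLt]
  rwa [h2] at this

theorem isotopic_of_path {n : ℕ} (γ : ℝ → Fin n → R3) (hγ : ContinuousOn γ (Set.Icc 0 1))
    (hK : ∀ t ∈ Set.Icc (0 : ℝ) 1, IsKnot (List.ofFn (γ t))) :
    Isotopic (List.ofFn (γ 0)) (List.ofFn (γ 1)) := by
  refine isPreconnected_Icc.induction₂' (fun s t => Isotopic (List.ofFn (γ s)) (List.ofFn (γ t)))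
    (s := Set.Icc (0 : ℝ) 1) ?_ ?_ (by simp) (by simp)
  · intro t ht
    have h1 := (hγ t ht).eventually (eventually_isotopic (γ t) (hK t ht))
    filter_upwards [h1] with s hs
    exact ⟨hs.2, hs.2.symm⟩
  · intro x y z _ _ _ h1 h2
    exact h1.trans h2

end Pool.Agent.LinKnot
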