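import Pool.Agent.Lib.MP_188a32_co_helper88.PosKnot

/-!
# Task D, third part: all alternating polygons in arc position with the same code are isotopic
-/

set_option autoImplicit false

namespace Pool.Agent.LinKnot

open scoped Classical Topology Matrix

lemma pos_path {m : ℕ} {A B : ℝ → ℕ → R3} (hA : ∀ i, ContinuousOn (fun t => A t i) (Set.Icc 0 1))
    (hB : ∀ i, ContinuousOn (fun t => B t i) (Set.Icc 0 1))
    (h : ∀ t ∈ Set.Icc (0 : ℝ) 1, Pos m (A t) (B t)) {c : List (ℕ × ℕ)} (hc : ValidCode m c) :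
    Isotopic (zig (A 0) (B 0) c) (zig (A 1) (B 1) c) := by
  have e : ∀ t, List.ofFn (fun k : Fin (labels c).length =>
      Sum.elim (A t) (B t) ((labels c).get k)) = zig (A t) (B t) c := by
    intro t
    rw [← map_labels, ← Function.comp_def, ← List.map_ofFn]
    congr 1
    exact List.ofFn_get (labels c)
  have := isotopic_of_path (fun t (k : Fin (labels c).length) =>
      Sum.elim (A t) (B t) ((labels c).get k)) (continuousOn_pi.2 fun k => by
        rcases (labels c).get k with i | i
        · exact hA i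
        · exact hB i) (by
      intro t ht
      rw [e]
      exact pos_isKnot (h t ht) hc)
  simpa only [e] using this

lemma orient_line {p p' q q' : R3} (r s : R3) (t : ℝ) (h : p' = p ∨ q' = q) :
    orient ((1 - t) • p + t • p') ((1 - t) • q + t • q') r s =
      (1 - t) * orient p q r s + t * orient p' q' r s := by
  rcases h with rfl | rfl <;> simp only [orient, Pi.add_apply, Pi.smul_apply, smul_eq_mul] <;> ring

lemma Pos.interp {m : ℕ} {a a' b : ℕ → R3} {i₀ : ℕ} (ha : ∀ i, i ≠ i₀ → a' i = a i)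
    (h : Pos m a b) (h' : Pos m a' b) {t : ℝ} (ht : t ∈ Set.Icc (0 : ℝ) 1) :
    Pos m (fun i => (1 - t) • a i + t • a' i) b := by
  intro i j k l hij hj hkl hl
  have h1 : a' i = a i ∨ a' j = a j := by
    by_cases hi : i = i₀
    · exact Or.inr (ha j (by omega))
    · exact Or.inl (ha i hi)
  rw [orient_line _ _ _ h1]
  have h2 := h i j k l hij hj hkl hl
  have h3 := h' i j k l hij hj hkl hl
  rcases eq_or_lt_of_le ht.1 with h7 | h7
  · rw [← h7]; linarith
  · have := mul_pos h7 h3
    have := mul_nonneg (sub_nonneg.2 ht.2) h2.le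
    linarith

lemma pos_line_left {m : ℕ} {a a' b : ℕ → R3} {i₀ : ℕ} (ha : ∀ i, i ≠ i₀ → a' i = a i)
    (h : Pos m a b) (h' : Pos m a' b) {c : List (ℕ × ℕ)} (hc : ValidCode m c) :
    Isotopic (zig a b c) (zig a' b c) := by
  have := pos_path (m := m) (A := fun t i => (1 - t) • a i + t • a' i) (B := fun _ => b)
    (fun i => by fun_prop) (fun i => by fun_prop) (fun t ht => h.interp ha h' ht) hc
  simpa using this

lemma pos_line_right {m : ℕ} {a a' b : ℕ → R3} {i₀ : ℕ} (ha : ∀ i, i ≠ i₀ → a' i = a i)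
    (h : Pos m a b) (h' : Pos m a' b) {c : List (ℕ × ℕ)} (hc : ValidCode m c) :
    Isotopic (zig b a c) (zig b a' c) := by
  have := pos_path (m := m) (B := fun t i => (1 - t) • a i + t • a' i) (A := fun _ => b)
    (fun i => by fun_prop) (fun i => by fun_prop) (fun t ht => (h.interp ha h' ht).swap) hc
  simpa using this

lemma zig_congr {a b a' b' : ℕ → R3} {c : List (ℕ × ℕ)}
    (h : ∀ x ∈ c, a x.1 = a' x.1 ∧ b x.2 = b' x.2) : zig a b c = zig a' b' c := by
  induction c with
  | nil => rfl
  | cons x c ih =>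
    rw [zig_cons, zig_cons, (h x (by simp)).1, (h x (by simp)).2,
      ih (fun y hy => h y (List.mem_cons_of_mem _ hy))]

lemma Pos.congr {m : ℕ} {a a' b : ℕ → R3} (h : Pos m a b) (ha : ∀ i < m, a i = a' i) :
    Pos m a' b := by
  intro i j k l hij hj hkl hl
  rw [← ha i (by omega), ← ha j hj]
  exact h i j k l hij hj hkl hl

/-- parameters of the points on the line -/
noncomputable def coef (ε : ℝ) (i : ℕ) : ℝ := if i = 0 then 0 else if i = 1 then 1 else 1 + ε * i

/-- collinearised points -/
noncomputable def col (ε : ℝ) (a : ℕ → R3) (i : ℕ) : R3 := AffineMap.lineMap (a 0) (a 1) (coef ε i)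

lemma col_zero (ε : ℝ) (a : ℕ → R3) : col ε a 0 = a 0 := by simp [col, coef]
lemma col_one (ε : ℝ) (a : ℕ → R3) : col ε a 1 = a 1 := by simp [col, coef]

lemma coef_lt {ε : ℝ} (hε : 0 < ε) {i j : ℕ} (h : i < j) : coef ε i < coef ε j := by
  unfold coef
  have hi : (0 : ℝ) ≤ i := Nat.cast_nonneg i
  have hij : (i : ℝ) < j := by exact_mod_cast h
  have hj0 : j ≠ 0 := by omega
  rw [if_neg hj0]
  by_cases hi0 : i = 0
  · rw [if_pos hi0]
    split_ifs
    · norm_num
    · have := mul_pos hε (lt_of_le_of_lt hi hij); linarith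
  rw [if_neg hi0]
  have hj1 : j ≠ 1 := by omega
  rw [if_neg hj1]
  by_cases hi1 : i = 1
  · rw [if_pos hi1]
    have := mul_pos hε (lt_of_le_of_lt hi hij); linarith
  · rw [if_neg hi1]
    have := mul_lt_mul_of_pos_left hij hε
    linarith

lemma orient_lineMap (p q r s : R3) (x y : ℝ) :
    orient (AffineMap.lineMap p q x) (AffineMap.lineMap p q y) r s = (y - x) * orient p q r s := by
  simp only [AffineMap.lineMap_apply, orient, vsub_eq_sub, vadd_eq_add, Pi.add_apply,
    Pi.smul_apply, Pi.sub_apply, smul_eq_mul]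
  ring

/-- the first `k` points are collinearised -/
noncomputable def hyb (ε : ℝ) (a : ℕ → R3) (k i : ℕ) : R3 := if i < k then col ε a i else a i

lemma hyb_pos {m : ℕ} {a b : ℕ → R3} (h : Pos m a b) {ε : ℝ} (hε : 0 < ε)
    (hE : ∀ i ∈ Finset.range m, ∀ j ∈ Finset.range m, ∀ k ∈ Finset.range m,
      ∀ l ∈ Finset.range m, 1 < j → k < l →
        0 < orient (AffineMap.lineMap (a 0) (a 1) (1 + ε * i)) (a j) (b k) (b l)) (n : ℕ) :
    Pos m (hyb ε a n) b := by
  intro i j k l hij hj hkl hl
  unfold hyb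
  by_cases h1 : j < n
  · rw [if_pos h1, if_pos (hij.trans h1)]
    unfold col
    rw [orient_lineMap]
    exact mul_pos (sub_pos.2 (coef_lt hε hij)) (h 0 1 k l one_pos (by omega) hkl hl)
  rw [if_neg h1]
  by_cases h2 : i < n
  · rw [if_pos h2]
    rcases Nat.eq_zero_or_pos i with h3 | h3
    · subst h3; rw [col_zero]; exact h 0 j k l hij hj hkl hl
    rcases Nat.eq_or_lt_of_le h3 with h4 | h4
    · have : i = 1 := by omega
      subst this; rw [col_one]; exact h 1 j k l hij hj hkl hl
    · have h5 := hE i (Finset.mem_range.2 (by omega)) j (Finset.mem_range.2 hj) k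
        (Finset.mem_range.2 (by omega)) l (Finset.mem_range.2 hl) (by omega) hkl
      unfold col coef
      rw [if_neg (by omega), if_neg (by omega)]
      exact h5
  · rw [if_neg h2]; exact h i j k l hij hj hkl hl

lemma pos_col {m : ℕ} {a b : ℕ → R3} (h : Pos m a b) : ∀ᶠ ε : ℝ in 𝓝[>] 0,
    Pos m (col ε a) b ∧ (∀ c, ValidCode m c → Isotopic (zig a b c) (zig (col ε a) b c)) ∧
      ∀ c, ValidCode m c → Isotopic (zig b a c) (zig b (col ε a) c) := by
  have hE : ∀ᶠ ε : ℝ in 𝓝 0, ∀ i ∈ Finset.range m, ∀ j ∈ Finset.range m, ∀ k ∈ Finset.range m,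
      ∀ l ∈ Finset.range m, 1 < j → k < l →
        0 < orient (AffineMap.lineMap (a 0) (a 1) (1 + ε * i)) (a j) (b k) (b l) := by
    rw [Filter.eventually_all_finset]; intro i _
    rw [Filter.eventually_all_finset]; intro j hj
    rw [Filter.eventually_all_finset]; intro k _
    rw [Filter.eventually_all_finset]; intro l hl
    rw [Filter.eventually_imp_distrib_left]; intro h1
    rw [Filter.eventually_imp_distrib_left]; intro h2
    rw [Finset.mem_range] at hj hl
    have hc : Continuous fun ε : ℝ =>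
        orient (AffineMap.lineMap (a 0) (a 1) (1 + ε * i)) (a j) (b k) (b l) := by
      simp only [AffineMap.lineMap_apply, orient, vsub_eq_sub, vadd_eq_add, Pi.add_apply,
        Pi.smul_apply, Pi.sub_apply, smul_eq_mul]
      fun_prop
    apply (isOpen_lt continuous_const hc).mem_nhds
    simp only [Set.mem_ofPred_eq, zero_mul, add_zero, AffineMap.lineMap_apply_one]
    exact h 1 j k l h1 hj h2 hl
  filter_upwards [nhdsWithin_le_nhds hE, self_mem_nhdsWithin] with ε hε hε0
  have hpos := hyb_pos h hε0 hε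
  have h0 : hyb ε a 0 = a := by funext i; simp [hyb]
  have hstep : ∀ n i, i ≠ n → hyb ε a (n + 1) i = hyb ε a n i := by
    intro n i hi
    unfold hyb
    by_cases h1 : i < n
    · rw [if_pos h1, if_pos (by omega)]
    · rw [if_neg h1, if_neg (by omega)]
  have hm : ∀ i < m, hyb ε a m i = col ε a i := by
    intro i hi; unfold hyb; rw [if_pos hi]
  refine ⟨(hpos m).congr hm, fun c hc => ?_, fun c hc => ?_⟩
  · have : ∀ n, Isotopic (zig a b c) (zig (hyb ε a n) b c) := by
      intro n
      induction n with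
      | zero => rw [h0]; exact Isotopic.refl _
      | succ n ih => exact ih.trans (pos_line_left (hstep n) (hpos n) (hpos (n + 1)) hc)
    have h1 := this m
    rwa [zig_congr (a' := col ε a) (b' := b) (fun x hx => ⟨hm _ (hc.2.2.2 x hx).1, rfl⟩)] at h1
  · have : ∀ n, Isotopic (zig b a c) (zig b (hyb ε a n) c) := by
      intro n
      induction n with
      | zero => rw [h0]; exact Isotopic.refl _
      | succ n ih => exact ih.trans (pos_line_right (hstep n) (hpos n) (hpos (n + 1)) hc)
    have h1 := this m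
    rwa [zig_congr (a' := b) (b' := col ε a) (fun x hx => ⟨rfl, hm _ (hc.2.2.2 x hx).2⟩)] at h1

/-- matrix of the frame of four points -/
def frame (p q r s : R3) : Matrix (Fin 3) (Fin 3) ℝ :=
  Matrix.of fun i j => ![q i - p i, r i - p i, s i - p i] j

lemma det_frame (p q r s : R3) : (frame p q r s).det = orient p q r s := by
  rw [Matrix.det_fin_three]
  simp only [frame, Matrix.of_apply, Matrix.cons_val_zero, Matrix.cons_val_one, Matrix.cons_val,
    orient]
  ring

lemma frame_mul (p q r s : R3) (x : R3) :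
    frame p q r s *ᵥ x = x 0 • (q - p) + x 1 • (r - p) + x 2 • (s - p) := by
  funext i
  simp only [frame, Matrix.mulVec, dotProduct, Fin.sum_univ_three, Matrix.of_apply,
    Matrix.cons_val_zero, Matrix.cons_val_one, Matrix.cons_val, Pi.add_apply, Pi.smul_apply,
    Pi.sub_apply, smul_eq_mul]
  ring

lemma exists_affine {p q r s p' q' r' s' : R3} (h : 0 < orient p q r s)
    (h' : 0 < orient p' q' r' s') : ∃ T : R3 →ᵃ[ℝ] R3, 0 < LinearMap.det T.linear ∧ T p = p' ∧
      T q = q' ∧ T r = r' ∧ T s = s' := by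
  have hu : IsUnit (frame p q r s).det := by rw [det_frame]; exact isUnit_iff_ne_zero.2 h.ne'
  set L := frame p' q' r' s' * (frame p q r s)⁻¹ with hL
  have key : ∀ x : R3, L *ᵥ (frame p q r s *ᵥ x) = frame p' q' r' s' *ᵥ x := by
    intro x
    rw [Matrix.mulVec_mulVec, hL, Matrix.mul_assoc, Matrix.nonsing_inv_mul _ hu, Matrix.mul_one]
  refine ⟨(Matrix.toLin' L).toAffineMap + AffineMap.const ℝ R3 (p' - L *ᵥ p), ?_, ?_, ?_, ?_, ?_⟩
  · rw [AffineMap.add_linear, AffineMap.const_linear, add_zero, LinearMap.toAffineMap_linear,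
      LinearMap.det_toLin', hL, Matrix.det_mul, Matrix.det_nonsing_inv, det_frame, det_frame,
      Ring.inverse_eq_inv']
    positivity
  · simp
  · have h1 := key ![1, 0, 0]
    rw [frame_mul, frame_mul] at h1
    simp [Matrix.mulVec_sub] at h1
    simp [Matrix.toLin'_apply]
    rw [show L *ᵥ q + (p' - L *ᵥ p) = (L *ᵥ q - L *ᵥ p) + p' by abel, h1]
    simp
  · have h1 := key ![0, 1, 0]
    rw [frame_mul, frame_mul] at h1
    simp [Matrix.mulVec_sub] at h1
    simp [Matrix.toLin'_apply]
    rw [show L *ᵥ r + (p' - L *ᵥ p) = (L *ᵥ r - L *ᵥ p) + p' by abel, h1]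
    simp
  · have h1 := key ![0, 0, 1]
    rw [frame_mul, frame_mul] at h1
    simp [Matrix.mulVec_sub] at h1
    simp [Matrix.toLin'_apply]
    rw [show L *ᵥ s + (p' - L *ᵥ p) = (L *ᵥ s - L *ᵥ p) + p' by abel, h1]
    simp

theorem pos_isotopic {m : ℕ} {a b a' b' : ℕ → R3} (h : Pos m a b) (h' : Pos m a' b')
    {c : List (ℕ × ℕ)} (hc : ValidCode m c) : Isotopic (zig a b c) (zig a' b' c) := by
  have hm : 1 < m := by
    obtain ⟨h1, h2, -, h4⟩ := hc
    match c, h1, h2, h4 with
    | x :: y :: c, _, h2, h4 =>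
      have hx := (h4 x (by simp)).1
      have hy := (h4 y (by simp)).1
      have hxy : x.1 ≠ y.1 := by
        simp only [List.map_cons, List.nodup_cons, List.mem_cons, not_or] at h2
        exact h2.1.1
      omega
  obtain ⟨ε, ⟨h1, i1, -⟩, h1', i1', -⟩ := ((pos_col h).and (pos_col h')).exists
  obtain ⟨δ, ⟨h2, -, i2⟩, h2', -, i2'⟩ := ((pos_col h1.swap).and (pos_col h1'.swap)).exists
  have o1 := h 0 1 0 1 one_pos hm one_pos hm
  have o2 := h' 0 1 0 1 one_pos hm one_pos hm
  obtain ⟨T, hT, t1, t2, t3, t4⟩ := exists_affine o1 o2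
  have hk : IsKnot (zig (col ε a) (col δ b) c) := pos_isKnot h2.swap hc
  have i3 := isotopic_map_affine T hT hk
  have e : (zig (col ε a) (col δ b) c).map T = zig (col ε a') (col δ b') c := by
    have hcol : ∀ (x : ℝ) (d d' : ℕ → R3), T (d 0) = d' 0 → T (d 1) = d' 1 →
        ∀ i, T (col x d i) = col x d' i := by
      intro x d d' h0 h1 i
      unfold col
      rw [AffineMap.apply_lineMap, h0, h1]
    rw [← map_labels, ← map_labels, List.map_map]
    congr 1
    funext s
    rcases s with i | i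
    · exact hcol _ _ _ t1 t2 i
    · exact hcol _ _ _ t3 t4 i
  rw [e] at i3
  exact ((((i1 c hc).trans (i2 c hc)).trans i3).trans (i2' c hc).symm).trans (i1' c hc).symm

end Pool.Agent.LinKnot
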